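import Mathlib
import Pool.Agent.helper60.CJ.S

/-!
# The curve of genus `l + 2` and the stability condition of type `(g, n)`
-/

namespace Pool.Agent.helper72.CJG

open Finset Pool.Agent.helper72.CJ

/-- The nodes: nine nodes on the three paths 0-1-2-7, 0-3-4-7, 0-5-6-7, and `l` further nodes
that are self-intersections of the component 0. -/
abbrev Nodes (l : ℕ) := Fin 9 ⊕ Fin l

def srcG (l : ℕ) : Nodes l → Fin 8 := Sum.elim srcT (fun _ => 0)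

def tgtG (l : ℕ) : Nodes l → Fin 8 := Sum.elim tgtT (fun _ => 0)

/-- The first six markings lie on the components 1 to 6, the others on the component 0. -/
def markG (n : ℕ) : Fin n → Fin 8 := fun i => if h : i.val < 6 then markT ⟨i.val, h⟩ else 0

/-- The trace of a set of markings on the first six. -/
def six {n : ℕ} (A : Finset (Fin n)) : Finset (Fin 6) :=
  univ.filter fun i : Fin 6 => ∃ j ∈ A, j.val = i.val

/-- The bound for a subcurve of genus `h` with set of markings `A` meeting the rest of the curve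
in `t` points: the least integer at least `5 c / 6 + 1 - h - t / 2`, where `c` is the number of
markings among the first six, where if the latter number is an integer the tie is broken
upwards in the following cases: `c = 6`, or `c = 3` and `delta` is zero. -/
def valG {n : ℕ} (t h : ℕ) (A : Finset (Fin n)) : ℤ :=
  1 - h - (3 * t - 5 * (six A).card : ℤ) / 6 +
    if (t % 2 = 1 ∧ (six A).card = 3 ∧ delta (six A) = 0) ∨ (t % 2 = 0 ∧ (six A).card = 6)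
    then 1 else 0

theorem six_univ {n : ℕ} (hn : 6 ≤ n) : six (univ : Finset (Fin n)) = univ := by
  ext i
  simp only [six, Finset.mem_filter, Finset.mem_univ, true_and, iff_true]
  exact ⟨⟨i.val, by omega⟩, rfl⟩

theorem six_union {n : ℕ} (A B : Finset (Fin n)) : six (A ∪ B) = six A ∪ six B := by
  ext i
  simp only [six, Finset.mem_filter, Finset.mem_univ, true_and, Finset.mem_union]
  constructor
  · rintro ⟨j, h | h, hj⟩
    · exact Or.inl ⟨j, h, hj⟩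
    · exact Or.inr ⟨j, h, hj⟩
  · rintro (⟨j, h, hj⟩ | ⟨j, h, hj⟩)
    · exact ⟨j, Or.inl h, hj⟩
    · exact ⟨j, Or.inr h, hj⟩

theorem six_disjoint {n : ℕ} {A B : Finset (Fin n)} (h : Disjoint A B) :
    Disjoint (six A) (six B) := by
  rw [Finset.disjoint_left] at h ⊢
  intro i hi hi'
  simp only [six, Finset.mem_filter, Finset.mem_univ, true_and] at hi hi'
  obtain ⟨j, hj, hji⟩ := hi
  obtain ⟨j', hj', hji'⟩ := hi'
  have : j = j' := Fin.ext (hji.trans hji'.symm)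
  subst this
  exact h hj hj'

theorem six_compl {n : ℕ} (hn : 6 ≤ n) (A : Finset (Fin n)) : six Aᶜ = (six A)ᶜ := by
  refine eq_compl_iff_isCompl.mpr ⟨?_, ?_⟩
  · exact six_disjoint disjoint_compl_left
  · rw [codisjoint_iff]
    change six Aᶜ ∪ six A = univ
    rw [← six_union, Finset.union_comm, Finset.union_compl, six_univ hn]

/-- The properties of the tie-breaking. -/
theorem valG_spec {n : ℕ} (t h : ℕ) (A : Finset (Fin n)) : ∃ u : ℤ,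
    valG t h A = 1 - h - (3 * t - 5 * (six A).card : ℤ) / 6 + u ∧
    (t % 2 = 0 → (six A).card = 6 → u = 1) ∧ (t % 2 = 0 → (six A).card ≠ 6 → u = 0) ∧
    (t % 2 = 1 → (six A).card ≠ 3 → u = 0) ∧
    (t % 2 = 1 → (six A).card = 3 → u = 1 - delta (six A)) := by
  refine ⟨_, rfl, ?_, ?_, ?_, ?_⟩
  · intro h1 h2
    rw [if_pos (Or.inr ⟨h1, h2⟩)]
  · intro h1 h2
    rw [if_neg]
    rintro (⟨h3, _⟩ | ⟨_, h3⟩)
    · omega
    · exact h2 h3
  · intro h1 h2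
    rw [if_neg]
    rintro (⟨_, h3, _⟩ | ⟨h3, _⟩)
    · exact h2 h3
    · omega
  · intro h1 h2
    rcases delta_zero_or_one (six A) with h3 | h3
    · rw [if_pos (Or.inl ⟨h1, h2, h3⟩), h3]
      norm_num
    · rw [if_neg, h3]
      · norm_num
      · rintro (⟨_, _, h4⟩ | ⟨h4, _⟩)
        · omega
        · omega

/-- The arithmetic of the tie-breaking: `6 * D + r = 3 * t - 5 * c`. -/
theorem arith_one (t c : ℕ) (hc : c ≤ 6) : ∃ r : ℤ, 0 ≤ r ∧ r < 6 ∧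
    6 * ((3 * t - 5 * c : ℤ) / 6) + r = 3 * t - 5 * c ∧
    (r = 0 ↔ (t % 2 = 0 ∧ (c = 0 ∨ c = 6)) ∨ (t % 2 = 1 ∧ c = 3)) := by
  refine ⟨(3 * t - 5 * c : ℤ) % 6, Int.emod_nonneg _ (by norm_num), Int.emod_lt_of_pos _ (by norm_num),
    Int.mul_ediv_add_emod _ _, ?_⟩
  obtain ⟨q, hq | hq⟩ : ∃ q, t = 2 * q ∨ t = 2 * q + 1 := ⟨t / 2, by omega⟩
  all_goals subst hq
  all_goals interval_cases c <;> omega

theorem arith_compl (g t h h' c c' : ℕ) (u v d d' : ℤ) (hh : h + h' + t = g + 1)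
    (hc : c + c' = 6) (hd : d + d' = 1)
    (u1 : t % 2 = 0 → c = 6 → u = 1) (u2 : t % 2 = 0 → c ≠ 6 → u = 0)
    (u3 : t % 2 = 1 → c ≠ 3 → u = 0) (u4 : t % 2 = 1 → c = 3 → u = 1 - d)
    (v1 : t % 2 = 0 → c' = 6 → v = 1) (v2 : t % 2 = 0 → c' ≠ 6 → v = 0)
    (v3 : t % 2 = 1 → c' ≠ 3 → v = 0) (v4 : t % 2 = 1 → c' = 3 → v = 1 - d') :
    (1 - h - (3 * t - 5 * c : ℤ) / 6 + u) + (1 - h' - (3 * t - 5 * c' : ℤ) / 6 + v) =
      6 - g + 1 := by
  obtain ⟨r, r0, r6, hr, hri⟩ := arith_one t c (by omega)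
  obtain ⟨s, s0, s6, hs, hsi⟩ := arith_one t c' (by omega)
  generalize (3 * t - 5 * c : ℤ) / 6 = D at hr ⊢
  generalize (3 * t - 5 * c' : ℤ) / 6 = D' at hs ⊢
  rcases Nat.mod_two_eq_zero_or_one t with ht | ht
  · simp only [ht, forall_const] at u1 u2 v1 v2 hri hsi
    by_cases h1 : c = 6
    · have := u1 h1
      have := v2 (by omega)
      omega
    · by_cases h2 : c' = 6
      · have := u2 h1
        have := v1 h2
        omega
      · have := u2 h1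
        have := v2 h2
        omega
  · simp only [ht, forall_const] at u3 u4 v3 v4 hri hsi
    by_cases h1 : c = 3
    · have := u4 h1
      have := v4 (by omega)
      omega
    · have := u3 h1
      have := v3 (by omega)
      omega

theorem tie_val (t c : ℕ) (u d r : ℤ) (e : d = 0 ∨ d = 1)
    (hri : r = 0 ↔ (t % 2 = 0 ∧ (c = 0 ∨ c = 6)) ∨ (t % 2 = 1 ∧ c = 3))
    (u1 : t % 2 = 0 → c = 6 → u = 1) (u2 : t % 2 = 0 → c ≠ 6 → u = 0)
    (u3 : t % 2 = 1 → c ≠ 3 → u = 0) (u4 : t % 2 = 1 → c = 3 → u = 1 - d) :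
    (r = 0 → u = 0 ∨ u = 1) ∧ (r ≠ 0 → u = 0) := by
  rcases Nat.mod_two_eq_zero_or_one t with hp | hp
  · by_cases h1 : c = 6
    · exact ⟨fun _ => Or.inr (u1 hp h1), fun h => absurd (hri.mpr (Or.inl ⟨hp, Or.inr h1⟩)) h⟩
    · exact ⟨fun _ => Or.inl (u2 hp h1), fun _ => u2 hp h1⟩
  · by_cases h1 : c = 3
    · have h2 := u4 hp h1
      refine ⟨fun _ => ?_, fun h => absurd (hri.mpr (Or.inr ⟨hp, h1⟩)) h⟩
      rcases e with e | e
      · right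
        rw [h2, e]
        norm_num
      · left
        rw [h2, e]
        norm_num
    · exact ⟨fun _ => Or.inl (u3 hp h1), fun _ => u3 hp h1⟩

theorem not_all_ties (u v w r s t : ℤ) (hF : r + s + t = 0 ∨ r + s + t = 6 ∨ r + s + t = 12)
    (r0 : 0 ≤ r) (r6 : r < 6) (s0 : 0 ≤ s) (s6 : s < 6) (t0 : 0 ≤ t) (t6 : t < 6)
    (hu : (r = 0 → u = 0 ∨ u = 1) ∧ (r ≠ 0 → u = 0))
    (hv : (s = 0 → v = 0 ∨ v = 1) ∧ (s ≠ 0 → v = 0))
    (hw : (t = 0 → w = 0 ∨ w = 1) ∧ (t ≠ 0 → w = 0)) (h : r ≠ 0 ∨ s ≠ 0) :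
    u + v + w + (r + s + t) / 6 = 1 ∨ u + v + w + (r + s + t) / 6 = 2 := by
  rcases hF with hF | hF | hF
  · omega
  · rw [hF]
    by_cases hr : r = 0
    · have h1 : s ≠ 0 := by omega
      have h2 : t ≠ 0 := by omega
      rw [hv.2 h1, hw.2 h2]
      rcases hu.1 hr with h3 | h3 <;> rw [h3] <;> norm_num
    · rw [hu.2 hr]
      by_cases hs : s = 0
      · have h2 : t ≠ 0 := by omega
        rw [hw.2 h2]
        rcases hv.1 hs with h3 | h3 <;> rw [h3] <;> norm_num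
      · rw [hv.2 hs]
        by_cases ht : t = 0
        · rcases hw.1 ht with h3 | h3 <;> rw [h3] <;> norm_num
        · rw [hw.2 ht]
          norm_num
  · rw [hF, hu.2 (by omega), hv.2 (by omega), hw.2 (by omega)]
    norm_num

theorem three_ties (p q s c₁ c₂ c₃ : ℕ) (u v w d₁ d₂ d₃ : ℤ) (hps : (p + q + s) % 2 = 0)
    (hc : c₁ + c₂ + c₃ = 6)
    (k12 : c₁ = 3 → c₂ = 3 → d₁ + d₂ = 1) (k13 : c₁ = 3 → c₃ = 3 → d₁ + d₃ = 1)
    (k23 : c₂ = 3 → c₃ = 3 → d₂ + d₃ = 1)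
    (h1 : (p % 2 = 0 ∧ (c₁ = 0 ∨ c₁ = 6)) ∨ (p % 2 = 1 ∧ c₁ = 3))
    (h2 : (q % 2 = 0 ∧ (c₂ = 0 ∨ c₂ = 6)) ∨ (q % 2 = 1 ∧ c₂ = 3))
    (h3 : (s % 2 = 0 ∧ (c₃ = 0 ∨ c₃ = 6)) ∨ (s % 2 = 1 ∧ c₃ = 3))
    (u1 : p % 2 = 0 → c₁ = 6 → u = 1) (u2 : p % 2 = 0 → c₁ ≠ 6 → u = 0)
    (u4 : p % 2 = 1 → c₁ = 3 → u = 1 - d₁)
    (v1 : q % 2 = 0 → c₂ = 6 → v = 1) (v2 : q % 2 = 0 → c₂ ≠ 6 → v = 0)
    (v4 : q % 2 = 1 → c₂ = 3 → v = 1 - d₂)
    (w1 : s % 2 = 0 → c₃ = 6 → w = 1) (w2 : s % 2 = 0 → c₃ ≠ 6 → w = 0)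
    (w4 : s % 2 = 1 → c₃ = 3 → w = 1 - d₃) : u + v + w = 1 := by
  rcases h1 with ⟨p1, q1 | q1⟩ | ⟨p1, q1⟩ <;> rcases h2 with ⟨p2, q2 | q2⟩ | ⟨p2, q2⟩ <;>
  rcases h3 with ⟨p3, q3 | q3⟩ | ⟨p3, q3⟩ <;> subst q1 q2 q3 <;> try (exfalso; omega)
  · rw [u2 p1 (by norm_num), v2 p2 (by norm_num), w1 p3 rfl]; norm_num
  · rw [u2 p1 (by norm_num), v1 p2 rfl, w2 p3 (by norm_num)]; norm_num
  · rw [u2 p1 (by norm_num), v4 p2 rfl, w4 p3 rfl]
    linarith [k23 rfl rfl]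
  · rw [u1 p1 rfl, v2 p2 (by norm_num), w2 p3 (by norm_num)]; norm_num
  · rw [u4 p1 rfl, v2 p2 (by norm_num), w4 p3 rfl]
    linarith [k13 rfl rfl]
  · rw [u4 p1 rfl, v4 p2 rfl, w2 p3 (by norm_num)]
    linarith [k12 rfl rfl]

theorem arith_tri (g a b c h₁ h₂ h₃ c₁ c₂ c₃ : ℕ) (u v w d₁ d₂ d₃ : ℤ)
    (hs : h₁ + h₂ + h₃ + a + b + c = g + 2) (hc : c₁ + c₂ + c₃ = 6)
    (k12 : c₁ = 3 → c₂ = 3 → d₁ + d₂ = 1) (k13 : c₁ = 3 → c₃ = 3 → d₁ + d₃ = 1)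
    (k23 : c₂ = 3 → c₃ = 3 → d₂ + d₃ = 1)
    (e1 : d₁ = 0 ∨ d₁ = 1) (e2 : d₂ = 0 ∨ d₂ = 1) (e3 : d₃ = 0 ∨ d₃ = 1)
    (u1 : (a + b) % 2 = 0 → c₁ = 6 → u = 1) (u2 : (a + b) % 2 = 0 → c₁ ≠ 6 → u = 0)
    (u3 : (a + b) % 2 = 1 → c₁ ≠ 3 → u = 0) (u4 : (a + b) % 2 = 1 → c₁ = 3 → u = 1 - d₁)
    (v1 : (a + c) % 2 = 0 → c₂ = 6 → v = 1) (v2 : (a + c) % 2 = 0 → c₂ ≠ 6 → v = 0)
    (v3 : (a + c) % 2 = 1 → c₂ ≠ 3 → v = 0) (v4 : (a + c) % 2 = 1 → c₂ = 3 → v = 1 - d₂)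
    (w1 : (b + c) % 2 = 0 → c₃ = 6 → w = 1) (w2 : (b + c) % 2 = 0 → c₃ ≠ 6 → w = 0)
    (w3 : (b + c) % 2 = 1 → c₃ ≠ 3 → w = 0) (w4 : (b + c) % 2 = 1 → c₃ = 3 → w = 1 - d₃) :
    (1 - h₁ - (3 * (a + b : ℕ) - 5 * c₁ : ℤ) / 6 + u) +
      (1 - h₂ - (3 * (a + c : ℕ) - 5 * c₂ : ℤ) / 6 + v) +
      (1 - h₃ - (3 * (b + c : ℕ) - 5 * c₃ : ℤ) / 6 + w) = 6 - g + 1 ∨
    (1 - h₁ - (3 * (a + b : ℕ) - 5 * c₁ : ℤ) / 6 + u) +
      (1 - h₂ - (3 * (a + c : ℕ) - 5 * c₂ : ℤ) / 6 + v) +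
      (1 - h₃ - (3 * (b + c : ℕ) - 5 * c₃ : ℤ) / 6 + w) = 6 - g + 2 := by
  obtain ⟨r, r0, r6, hr, hri⟩ := arith_one (a + b) c₁ (by omega)
  obtain ⟨s, s0, s6, hs', hsi⟩ := arith_one (a + c) c₂ (by omega)
  obtain ⟨t, t0, t6, ht, hti⟩ := arith_one (b + c) c₃ (by omega)
  generalize (3 * (a + b : ℕ) - 5 * c₁ : ℤ) / 6 = D at hr ⊢
  generalize (3 * (a + c : ℕ) - 5 * c₂ : ℤ) / 6 = D' at hs' ⊢
  generalize (3 * (b + c : ℕ) - 5 * c₃ : ℤ) / 6 = D'' at ht ⊢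
  push_cast at hr hs' ht
  have hF : r + s + t = 0 ∨ r + s + t = 6 ∨ r + s + t = 12 := by omega
  -- the values of the ties
  have hu := tie_val (a + b) c₁ u d₁ r e1 hri u1 u2 u3 u4
  have hv := tie_val (a + c) c₂ v d₂ s e2 hsi v1 v2 v3 v4
  have hw := tie_val (b + c) c₃ w d₃ t e3 hti w1 w2 w3 w4
  have hsum : u + v + w + (r + s + t) / 6 = 1 ∨ u + v + w + (r + s + t) / 6 = 2 := by
    by_cases hr0 : r = 0
    · by_cases hs0 : s = 0
      · have ht0 : t = 0 := by omega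
        have h3 := three_ties (a + b) (a + c) (b + c) c₁ c₂ c₃ u v w d₁ d₂ d₃ (by omega) hc
          k12 k13 k23 (hri.mp hr0) (hsi.mp hs0) (hti.mp ht0) u1 u2 u4 v1 v2 v4 w1 w2 w4
        left
        rw [hr0, hs0, ht0, h3]
        norm_num
      · exact not_all_ties u v w r s t hF r0 r6 s0 s6 t0 t6 hu hv hw (Or.inr hs0)
    · exact not_all_ties u v w r s t hF r0 r6 s0 s6 t0 t6 hu hv hw (Or.inl hr0)
  clear u1 u2 u3 u4 v1 v2 v3 v4 w1 w2 w3 w4 k12 k13 k23 hri hsi hti e1 e2 e3 hu hv hw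
  omega

/-- The fine universal stability condition of type `(g, n)` and characteristic `6 - g`. -/
def sigmaG (g n : ℕ) (hn : 6 ≤ n) : FineV g n (6 - g) where
  val := valG
  compl := by
    intro t h h' A ht hh _ _
    obtain ⟨u, hu, u1, u2, u3, u4⟩ := valG_spec t h A
    obtain ⟨v, hv, v1, v2, v3, v4⟩ := valG_spec t h' Aᶜ
    rw [hu, hv]
    have hc : (six A).card + (six Aᶜ).card = 6 := by
      rw [six_compl hn, Finset.card_add_card_compl]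
      simp
    have hd : delta (six A) + delta (six Aᶜ) = 1 := by
      rw [six_compl hn]
      exact delta_compl _
    exact arith_compl g t h h' _ _ u v _ _ hh hc hd u1 u2 u3 u4 v1 v2 v3 v4
  tri := by
    intro a b c h₁ h₂ h₃ A₁ A₂ A₃ ha hb hc hs h12 h13 h23 hU _ _ _
    obtain ⟨u, hu, u1, u2, u3, u4⟩ := valG_spec (a + b) h₁ A₁
    obtain ⟨v, hv, v1, v2, v3, v4⟩ := valG_spec (a + c) h₂ A₂
    obtain ⟨w, hw, w1, w2, w3, w4⟩ := valG_spec (b + c) h₃ A₃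
    rw [hu, hv, hw]
    have d12 := six_disjoint h12
    have d13 := six_disjoint h13
    have d23 := six_disjoint h23
    have hU' : six A₁ ∪ six A₂ ∪ six A₃ = univ := by
      rw [← six_union, ← six_union, hU, six_univ hn]
    have hcard : (six A₁).card + (six A₂).card + (six A₃).card = 6 := by
      have h1 : (six A₁ ∪ six A₂ ∪ six A₃).card = 6 := by rw [hU']; simp
      rw [Finset.card_union_of_disjoint, Finset.card_union_of_disjoint d12] at h1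
      · exact h1
      · rw [Finset.disjoint_union_left]
        exact ⟨d13, d23⟩
    have key : ∀ X Y : Finset (Fin 6), Disjoint X Y → X.card = 3 → Y.card = 3 →
        delta X + delta Y = 1 := by
      intro X Y hXY hX hY
      have : Y = Xᶜ := by
        refine Finset.eq_of_subset_of_card_le ?_ ?_
        · intro i hi
          rw [Finset.mem_compl]
          exact fun hi' => Finset.disjoint_left.mp hXY hi' hi
        · rw [Finset.card_compl, hX, hY]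
          simp
      rw [this]
      exact delta_compl X
    exact arith_tri g a b c h₁ h₂ h₃ _ _ _ u v w _ _ _ hs hcard (key _ _ d12) (key _ _ d13)
      (key _ _ d23) (delta_zero_or_one _) (delta_zero_or_one _) (delta_zero_or_one _)
      u1 u2 u3 u4 v1 v2 v3 v4 w1 w2 w3 w4

end Pool.Agent.helper72.CJG
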