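import Mathlib
import Pool.Agent.helper72.CJG.Defs

/-!
# The stable curve
-/

namespace Pool.Agent.helper72.CJG

open Finset Pool.Agent.helper72.CJ

/-- The curve `C` (all of whose components are projective lines) with its `n` markings is a
stable `n`-pointed curve of genus `g`: it is connected, the number of nodes plus one is the number
of components plus `g`, and every component has at least three special points (points over the
nodes and markings). -/
def StableCurve (g : ℕ) {k : Type} [Field k] {V E : Type} {n : ℕ} [DecidableEq V] [Fintype V]
    [Fintype E] (C : Curve k V E n) : Prop :=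
  Conn C univ ∧ Fintype.card E + 1 = Fintype.card V + g ∧
    ∀ v : V, 3 ≤ (univ.filter fun e => C.src e = v).card + (univ.filter fun e => C.tgt e = v).card +
      (univ.filter fun i => C.mark i = v).card

/-- Coordinates of the special points. -/
noncomputable def coord (l n : ℕ) (k : Type) [Field k] [Infinite k] :
    (Nodes l ⊕ Nodes l) ⊕ Fin n → k :=
  fun x => Infinite.natEmbedding k (Encodable.encode x)

theorem coord_inj {l n : ℕ} {k : Type} [Field k] [Infinite k] {x y : (Nodes l ⊕ Nodes l) ⊕ Fin n}
    (h : coord l n k x = coord l n k y) : x = y :=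
  Encodable.encode_injective ((Infinite.natEmbedding k).injective h)

/-- The curve. -/
noncomputable def curveG (l n : ℕ) (k : Type) [Field k] [Infinite k] :
    Curve k (Fin 8) (Nodes l) n where
  src := srcG l
  tgt := tgtG l
  mark := markG n
  p := fun e => coord l n k (Sum.inl (Sum.inl e))
  q := fun e => coord l n k (Sum.inl (Sum.inr e))
  r := fun i => coord l n k (Sum.inr i)
  pp := fun e e' _ h => by
    have := coord_inj h
    simpa using this
  qq := fun e e' _ h => by
    have := coord_inj h
    simpa using this
  pq := fun e e' _ h => by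
    have := coord_inj h
    simp at this
  pr := fun e e' _ h => by
    have := coord_inj h
    simp at this
  qr := fun e e' _ h => by
    have := coord_inj h
    simp at this
  rr := fun e e' _ h => by
    have := coord_inj h
    simpa using this

theorem connT_univ : ConnT univ := by
  refine ⟨⟨0, by simp⟩, ?_⟩
  have key : ∀ Z : Finset (Fin 8), Z.Nonempty → Z ≠ univ →
      ∃ e, (srcT e ∈ Z ∧ tgtT e ∈ univ \ Z) ∨ (tgtT e ∈ Z ∧ srcT e ∈ univ \ Z) := by
    decide +kernel
  exact fun Z _ h1 h2 => key Z h1 h2

theorem stableCurve_curveG (l n : ℕ) (hn : 6 ≤ n) (k : Type) [Field k] [Infinite k] :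
    StableCurve (l + 2) (curveG l n k) := by
  refine ⟨⟨connT_univ.1, fun Z hZ h1 h2 => ?_⟩, ?_, ?_⟩
  · obtain ⟨e, he⟩ := connT_univ.2 Z hZ h1 h2
    exact ⟨Sum.inl e, he⟩
  · simp only [Fintype.card_sum, Fintype.card_fin]
    omega
  · intro v
    have e1 : ((univ : Finset (Fin 9)).filter fun e => srcT e = v).card ≤
        ((univ : Finset (Nodes l)).filter fun e => (curveG l n k).src e = v).card := by
      rw [← Finset.card_map (Function.Embedding.inl : Fin 9 ↪ Fin 9 ⊕ Fin l)]
      refine Finset.card_le_card fun e he => ?_
      rw [Finset.mem_map] at he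
      obtain ⟨e', he', rfl⟩ := he
      rw [Finset.mem_filter] at he' ⊢
      exact ⟨Finset.mem_univ _, he'.2⟩
    have e2 : ((univ : Finset (Fin 9)).filter fun e => tgtT e = v).card ≤
        ((univ : Finset (Nodes l)).filter fun e => (curveG l n k).tgt e = v).card := by
      rw [← Finset.card_map (Function.Embedding.inl : Fin 9 ↪ Fin 9 ⊕ Fin l)]
      refine Finset.card_le_card fun e he => ?_
      rw [Finset.mem_map] at he
      obtain ⟨e', he', rfl⟩ := he
      rw [Finset.mem_filter] at he' ⊢
      exact ⟨Finset.mem_univ _, he'.2⟩
    have e3 : ((univ : Finset (Fin 6)).filter fun i => markT i = v).card ≤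
        ((univ : Finset (Fin n)).filter fun i => (curveG l n k).mark i = v).card := by
      rw [← Finset.card_map (Fin.castLEEmb hn)]
      refine Finset.card_le_card fun e he => ?_
      rw [Finset.mem_map] at he
      obtain ⟨e', he', rfl⟩ := he
      rw [Finset.mem_filter] at he' ⊢
      refine ⟨Finset.mem_univ _, ?_⟩
      change markG n _ = v
      unfold markG
      rw [dif_pos (show ((Fin.castLEEmb hn) e').val < 6 from e'.isLt)]
      exact he'.2
    have e4 : ∀ v : Fin 8, 3 ≤ ((univ : Finset (Fin 9)).filter fun e => srcT e = v).card +
        ((univ : Finset (Fin 9)).filter fun e => tgtT e = v).card +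
        ((univ : Finset (Fin 6)).filter fun i => markT i = v).card := by
      decide +kernel
    have := e4 v
    omega

end Pool.Agent.helper72.CJG
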