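import Mathlib
import Pool.Agent.helper72.CJG.Defs

/-!
# Stability of the charts
-/

namespace Pool.Agent.helper72.CJG

open Finset Pool.Agent.helper72.CJ

/-- Shape of the subcurves that are connected with connected complement. -/
theorem shape (Y : Finset (Fin 8)) (hY : ConnT Y) (hY' : ConnT Yᶜ) :
    Y.card ≤ (univ.filter fun e => srcT e ∈ Y ∧ tgtT e ∈ Y).card + 1 ∧
    (((univ.filter fun e => ¬ (srcT e ∈ Y ↔ tgtT e ∈ Y)).card = 2 ∧
      (univ.filter fun e => srcT e ∈ Y ∧ tgtT e ∈ Y).card + 1 - Y.card ≤ 1) ∨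
    ((univ.filter fun e => ¬ (srcT e ∈ Y ↔ tgtT e ∈ Y)).card = 3 ∧
      (univ.filter fun e => srcT e ∈ Y ∧ tgtT e ∈ Y).card + 1 - Y.card = 0)) := by
  have key : ∀ m < 256, Chk.Bad m (Chk.comp m) ∨ Chk.Bad (255 ^^^ m) (Chk.comp (255 ^^^ m)) ∨
      ((univ.filter fun v : Fin 8 => m.testBit v = true).card ≤
        (univ.filter fun e : Fin 9 => m.testBit (srcT e) = true ∧
          m.testBit (tgtT e) = true).card + 1 ∧
      (((univ.filter fun e : Fin 9 => ¬ (m.testBit (srcT e) = m.testBit (tgtT e))).card = 2 ∧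
        (univ.filter fun e : Fin 9 => m.testBit (srcT e) = true ∧
          m.testBit (tgtT e) = true).card + 1 -
          (univ.filter fun v : Fin 8 => m.testBit v = true).card ≤ 1) ∨
      ((univ.filter fun e : Fin 9 => ¬ (m.testBit (srcT e) = m.testBit (tgtT e))).card = 3 ∧
        (univ.filter fun e : Fin 9 => m.testBit (srcT e) = true ∧
          m.testBit (tgtT e) = true).card + 1 -
          (univ.filter fun v : Fin 8 => m.testBit v = true).card = 0))) := by
    decide +kernel
  obtain ⟨m, hm, rfl⟩ := Chk.exists_fs Y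
  rw [Chk.compl_fs] at hY'
  rcases key m hm with h1 | h1 | h1
  · exact absurd hY (Chk.not_conn h1)
  · exact absurd hY' (Chk.not_conn h1)
  · have e1 : (univ.filter fun e : Fin 9 => ¬ (srcT e ∈ Chk.fs m ↔ tgtT e ∈ Chk.fs m)) =
        (univ.filter fun e : Fin 9 => ¬ (m.testBit (srcT e) = m.testBit (tgtT e))) := by
      ext e
      simp only [Finset.mem_filter, Chk.mem_fs, Finset.mem_univ, true_and]
      cases m.testBit (srcT e) <;> cases m.testBit (tgtT e) <;> simp
    have e2 : (univ.filter fun e : Fin 9 => srcT e ∈ Chk.fs m ∧ tgtT e ∈ Chk.fs m) =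
        (univ.filter fun e : Fin 9 => m.testBit (srcT e) = true ∧
          m.testBit (tgtT e) = true) := by
      ext e
      simp only [Finset.mem_filter, Chk.mem_fs, Finset.mem_univ, true_and]
    rw [e1, e2]
    exact h1

section

variable {l n : ℕ}

/-- The charts: as before on the nine nodes, trivial at the further nodes. -/
def chartG (l : ℕ) (D : Fin 8 → ℤ) (f₁ f₂ : Flag) (h : f₁.1 ≠ f₂.1) {A : Type} [CommRing A]
    (x y : A) : Fam A (Fin 8) (Nodes l) where
  d := D
  a := Sum.elim (chart D f₁ f₂ h x y).a (fun _ => 1)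
  b := Sum.elim (chart D f₁ f₂ h x y).b (fun _ => 1)
  cop := by
    rintro (e | e)
    · exact (chart D f₁ f₂ h x y).cop e
    · exact isCoprime_one_left

variable {k : Type} [Field k] (C : Curve k (Fin 8) (Nodes l) n) (hs : C.src = srcG l)
  (ht : C.tgt = tgtG l) (hm : C.mark = markG n)

include hs ht in
theorem conn_iff (Y : Finset (Fin 8)) (h : Conn C Y) : ConnT Y := by
  refine ⟨h.1, fun Z hZ hZ' hne => ?_⟩
  obtain ⟨e, he⟩ := h.2 Z hZ hZ' hne
  rw [hs, ht] at he
  rcases e with e | e
  · exact ⟨e, he⟩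
  · exfalso
    simp only [srcG, tgtG, Sum.elim_inr, Finset.mem_sdiff] at he
    rcases he with ⟨h1, _, h2⟩ | ⟨h1, _, h2⟩ <;> exact h2 h1

include hs ht in
theorem chiG_eq {K : Type} [Field K] (F : Fam K (Fin 8) (Nodes l)) (S : List Flag)
    (ha : ∀ e, F.a (Sum.inl e) = 0 ↔ (e, false) ∈ S)
    (hb : ∀ e, F.b (Sum.inl e) = 0 ↔ (e, true) ∈ S) (Y : Finset (Fin 8)) :
    chi C F Y = chiC F.d S Y - if (0 : Fin 8) ∈ Y then (l : ℤ) else 0 := by
  classical
  unfold chi chiC
  rw [Fintype.sum_sum_type, hs, ht]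
  simp only [srcG, tgtG, Sum.elim_inl, Sum.elim_inr, ha, hb]
  rw [sub_sub]
  congr 1
  congr 1
  by_cases h0 : (0 : Fin 8) ∈ Y
  · simp [h0]
  · simp [h0]

include hs ht hm in
theorem boundG_eq (hn : 6 ≤ n) (g : ℕ) (Y : Finset (Fin 8)) (hY : ConnT Y) (hY' : ConnT Yᶜ) :
    (sigmaG g n hn).bound C Y = boundT Y - if (0 : Fin 8) ∈ Y then (l : ℤ) else 0 := by
  classical
  obtain ⟨h1, h2⟩ := shape Y hY hY'
  have e1 : (univ.filter fun e : Nodes l => ¬ (C.src e ∈ Y ↔ C.tgt e ∈ Y)).card =
      (univ.filter fun e : Fin 9 => ¬ (srcT e ∈ Y ↔ tgtT e ∈ Y)).card := by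
    rw [hs, ht, ← Finset.card_map (Function.Embedding.inl : Fin 9 ↪ Fin 9 ⊕ Fin l)]
    congr 1
    ext e
    rw [Finset.mem_filter, Finset.mem_map]
    rcases e with e | e
    · simp [srcG, tgtG]
    · simp [srcG, tgtG]
  have e2 : (univ.filter fun e : Nodes l => C.src e ∈ Y ∧ C.tgt e ∈ Y).card =
      (univ.filter fun e : Fin 9 => srcT e ∈ Y ∧ tgtT e ∈ Y).card +
        if (0 : Fin 8) ∈ Y then l else 0 := by
    rw [hs, ht]
    have h3 : (univ.filter fun e : Nodes l => srcG l e ∈ Y ∧ tgtG l e ∈ Y) =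
        (univ.filter fun e : Fin 9 => srcT e ∈ Y ∧ tgtT e ∈ Y).disjSum
          (if (0 : Fin 8) ∈ Y then (univ : Finset (Fin l)) else ∅) := by
      ext e
      rw [Finset.mem_filter]
      rcases e with e | e
      · rw [Finset.inl_mem_disjSum, Finset.mem_filter]
        simp [srcG, tgtG]
      · rw [Finset.inr_mem_disjSum]
        by_cases h0 : (0 : Fin 8) ∈ Y <;> simp [srcG, tgtG, h0]
    rw [h3, Finset.card_disjSum]
    congr 1
    split_ifs <;> simp
  have e3 : six (univ.filter fun i : Fin n => C.mark i ∈ Y) =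
      univ.filter fun i : Fin 6 => markT i ∈ Y := by
    ext i
    simp only [six, Finset.mem_filter, Finset.mem_univ, true_and, hm]
    constructor
    · rintro ⟨j, hj, hji⟩
      have h6 : j.val < 6 := by omega
      simp only [markG, h6, dif_pos] at hj
      have : (⟨j.val, h6⟩ : Fin 6) = i := Fin.ext hji
      rw [this] at hj
      exact hj
    · intro hi
      refine ⟨⟨i.val, by omega⟩, ?_, rfl⟩
      simp only [markG, i.isLt, dif_pos]
      exact hi
  unfold FineV.bound boundT
  rw [e1, e2]
  change valG _ _ _ = _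
  unfold valG valT
  rw [e3]
  generalize (univ.filter fun i : Fin 6 => markT i ∈ Y) = B
  have hB6 : B.card ≤ 6 := by
    have := Finset.card_le_univ B
    simpa using this
  have hδ : delta B = 0 ∨ delta B = 1 := delta_zero_or_one B
  have hδ4 : B.card < 3 → delta B = 0 := by
    intro h
    rcases hδ with h' | h'
    · exact h'
    · have := card_of_delta B h'
      omega
  have hδ5 : 4 ≤ B.card → delta B = 1 := by
    intro h
    unfold delta
    rw [if_pos (Or.inl h)]
  rcases h2 with ⟨t2, h2⟩ | ⟨t3, h2⟩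
  · rw [t2]
    generalize hI : (univ.filter fun e : Fin 9 => srcT e ∈ Y ∧ tgtT e ∈ Y).card = I at *
    generalize B.card = c at *
    have h0 : I + 1 - Y.card = 0 ∨ I + 1 - Y.card = 1 := by omega
    by_cases hz : (0 : Fin 8) ∈ Y
    · simp only [hz, if_true]
      have h5 : I + l + 1 - Y.card = (I + 1 - Y.card) + l := by omega
      rw [h5]
      rcases h0 with h0 | h0 <;> rw [h0] <;> interval_cases c <;> simp <;> omega
    · simp only [hz, if_false]
      rw [add_zero]
      rcases h0 with h0 | h0 <;> rw [h0] <;> interval_cases c <;> simp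
  · rw [t3]
    generalize hI : (univ.filter fun e : Fin 9 => srcT e ∈ Y ∧ tgtT e ∈ Y).card = I at *
    generalize hc : B.card = c at *
    by_cases hz : (0 : Fin 8) ∈ Y
    · simp only [hz, if_true]
      have h5 : I + l + 1 - Y.card = l := by omega
      rw [h5]
      by_cases h3 : c = 3
      · subst h3
        rcases hδ with h' | h' <;> rw [h'] <;> simp <;> omega
      · by_cases h4 : c < 3
        · rw [hδ4 h4]
          interval_cases c <;> simp <;> omega
        · rw [hδ5 (by omega)]
          interval_cases c <;> first | omega | (simp; try omega)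
    · simp only [hz, if_false]
      rw [add_zero, h2]
      by_cases h3 : c = 3
      · subst h3
        rcases hδ with h' | h' <;> rw [h'] <;> simp
      · by_cases h4 : c < 3
        · rw [hδ4 h4]
          interval_cases c <;> simp
        · rw [hδ5 (by omega)]
          interval_cases c <;> first | omega | simp

end

end Pool.Agent.helper72.CJG
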