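import Mathlib
import Pool.Agent.helper72.CJ.F
import Pool.Agent.helper72.CJG.Stab

/-!
# Surfaces for the curve of genus `l + 2`
-/

namespace Pool.Agent.helper72.CJG

open Finset Pool.Agent.helper72.CJ Pool.Agent.helper4.CJ Pool.Agent.helper33.CJ

variable {l n : ℕ}

theorem chartG_map (D : Fin 8 → ℤ) (f₁ f₂ : Flag) (h : f₁.1 ≠ f₂.1) {A B : Type} [CommRing A]
    [CommRing B] (f : A →+* B) (x y : A) :
    (chartG l D f₁ f₂ h x y).map f = chartG l D f₁ f₂ h (f x) (f y) := by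
  have h1 := chart_map D f₁ f₂ h f x y
  simp only [Fam.map, Fam.mk.injEq] at h1
  simp only [Fam.map, chartG, Fam.mk.injEq, true_and]
  constructor
  · funext e
    rcases e with e | e
    · exact congrFun (congrArg Fam.a h1) e
    · simp
  · funext e
    rcases e with e | e
    · exact congrFun (congrArg Fam.b h1) e
    · simp

theorem stable_map {V E : Type} {g n : ℕ} {χ : ℤ} {σ : FineV g n χ} {k : Type} [Field k]
    {C : Curve k V E n} [DecidableEq V] [Fintype V] [Fintype E]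
    {A B : Type} [CommRing A] [CommRing B] {F : Fam A V E} (hF : Stable σ C F)
    (f : A →+* B) : Stable σ C (F.map f) := by
  intro K _ g
  exact hF K (g.comp f)

theorem stable_chartG (hn : 6 ≤ n) {k : Type} [Field k]
    (C : Curve k (Fin 8) (Nodes l) n) (hs : C.src = srcG l)
    (ht : C.tgt = tgtG l) (hm : C.mark = markG n) (D : Fin 8 → ℤ) (f₁ f₂ : Flag)
    (h : Ok D f₁ f₂) {A : Type} [CommRing A] (x y : A) :
    Stable (sigmaG (l + 2) n hn) C (chartG l D f₁ f₂ h.1 x y) := by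
  obtain ⟨hne', hdet, h0, h1, h2, h12⟩ := h
  intro K _ f
  obtain ⟨S, hS, hok⟩ : ∃ S : List Flag, (∀ g : Flag, g ∈ S ↔
      (f (if g = f₁ then x else if g = f₂ then y else 1) = 0)) ∧ OkS D S := by
    have hne : f₂ ≠ f₁ := fun e => hne' (by rw [e])
    by_cases hx : f x = 0
    · by_cases hy : f y = 0
      · refine ⟨[f₁, f₂], fun g => ?_, h12⟩
        by_cases g1 : g = f₁
        · simp [g1, hx]
        · by_cases g2 : g = f₂
          · subst g2
            simp [g1, hy]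
          · simp [g1, g2]
      · refine ⟨[f₁], fun g => ?_, h1⟩
        by_cases g1 : g = f₁
        · simp [g1, hx]
        · by_cases g2 : g = f₂
          · subst g2
            simp [g1, hy]
          · simp [g1, g2]
    · by_cases hy : f y = 0
      · refine ⟨[f₂], fun g => ?_, h2⟩
        by_cases g1 : g = f₁
        · subst g1
          simp [hx, Ne.symm hne]
        · by_cases g2 : g = f₂
          · subst g2
            simp [g1, hy]
          · simp [g1, g2]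
      · refine ⟨[], fun g => ?_, h0⟩
        by_cases g1 : g = f₁
        · subst g1
          simp [hx]
        · by_cases g2 : g = f₂
          · subst g2
            simp [g1, hy]
          · simp [g1, g2]
  have key : ∀ Y, chi C ((chartG l D f₁ f₂ hne' x y).map f) Y =
      chiC D S Y - if (0 : Fin 8) ∈ Y then (l : ℤ) else 0 := by
    intro Y
    exact chiG_eq C hs ht ((chartG l D f₁ f₂ hne' x y).map f) S
      (fun e => (hS (e, false)).symm) (fun e => (hS (e, true)).symm) Y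
  refine ⟨?_, fun Y hY hY' => ?_⟩
  · rw [key, hok.1]
    simp
    ring
  · rw [key, boundG_eq C hs ht hm hn _ Y (conn_iff C hs ht Y hY) (conn_iff C hs ht _ hY')]
    have := hok.2 Y (conn_iff C hs ht Y hY) (conn_iff C hs ht _ hY')
    omega

section torus

variable {k : Type} [Field k]

/-- The reference family over the torus. -/
noncomputable def torusFamG (l : ℕ) (k : Type) [Field k] (D : Fin 8 → ℤ) :
    Fam (AddMonoidAlgebra k (ℤ × ℤ)) (Fin 8) (Nodes l) where
  d := D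
  a := fun _ => 1
  b := Sum.elim (fun e => mono k (ex0 e)) (fun _ => 1)
  cop := fun _ => isCoprime_one_left

theorem iso_torusG (C : Curve k (Fin 8) (Nodes l) n) (hs : C.src = srcG l) (ht : C.tgt = tgtG l)
    (D : Fin 8 → ℤ) (f₁ f₂ : Flag) (h : f₁.1 ≠ f₂.1)
    (hd : ((ray f₁).1 * (ray f₂).2 - (ray f₁).2 * (ray f₂).1) ^ 2 = 1) :
    SheafIso C (chartG l D f₁ f₂ h (mono k (dual₁ (ray f₁) (ray f₂)))
      (mono k (dual₂ (ray f₁) (ray f₂)))) (torusFamG l k D) := by
  refine iso_scale C _ _ rfl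
    (Sum.elim (fun e => monoU k
      (-exA f₁ f₂ (dual₁ (ray f₁) (ray f₂)) (dual₂ (ray f₁) (ray f₂)) e)) (fun _ => 1))
    (Sum.elim (fun e => monoU k
      (ex0 e - exB f₁ f₂ (dual₁ (ray f₁) (ray f₂)) (dual₂ (ray f₁) (ray f₂)) e)) (fun _ => 1))
    ?_ ?_ (fun v => monoU k (gam f₁ f₂ v)) ?_
  · rintro (e | e)
    · have h1 : (chartG l D f₁ f₂ h (mono k (dual₁ (ray f₁) (ray f₂)))
          (mono k (dual₂ (ray f₁) (ray f₂)))).a (Sum.inl e) = _ := chart_a_mono D f₁ f₂ h _ _ e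
      rw [h1, Sum.elim_inl, monoU_val, mono_mul, neg_add_cancel, mono_zero]
      rfl
    · simp [chartG, torusFamG]
  · rintro (e | e)
    · have h1 : (chartG l D f₁ f₂ h (mono k (dual₁ (ray f₁) (ray f₂)))
          (mono k (dual₂ (ray f₁) (ray f₂)))).b (Sum.inl e) = _ := chart_b_mono D f₁ f₂ h _ _ e
      rw [h1, Sum.elim_inl, monoU_val, mono_mul, sub_add_cancel]
      rfl
    · simp [chartG, torusFamG]
  · rintro (e | e)
    · ext1
      rw [Sum.elim_inl, Sum.elim_inl, Units.val_mul, Units.val_mul, monoU_val, monoU_val,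
        monoU_val, monoU_val, mono_mul, mono_mul, hs, ht]
      change mono k (_ + gam f₁ f₂ (tgtT e)) = mono k (_ + gam f₁ f₂ (srcT e))
      rw [gam_eq f₁ f₂ h hd e, lam]
      congr 1
      abel
    · rw [hs, ht]
      rfl

end torus

section main

variable (hn : 6 ≤ n) {k : Type} [Field k]
  (C : Curve k (Fin 8) (Nodes l) n) (hs : C.src = srcG l)
  (ht : C.tgt = tgtG l) (hm : C.mark = markG n) {m : ℕ} (P : ProjMap (sigmaG (l + 2) n hn) C m)

include hs ht hm in
theorem exists_vecG (D : Fin 8 → ℤ) (f₁ f₂ : Flag) (h : Ok D f₁ f₂) :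
    ∃ G : Fin m → MvPolynomial (Fin 2) k,
      (∀ (B : Type) [CommRing B] [Algebra k B] (f : MvPolynomial (Fin 2) k →ₐ[k] B),
        P.Φ B (chartG l D f₁ f₂ h.1 (f (MvPolynomial.X 0)) (f (MvPolynomial.X 1))) =
          Submodule.span B {fun i => f (G i)}) ∧ ∃ i, (G i).coeff 0 ≠ 0 := by
  have hst : Stable (sigmaG (l + 2) n hn) C (chartG l D f₁ f₂ h.1
      (MvPolynomial.X 0 : MvPolynomial (Fin 2) k) (MvPolynomial.X 1)) :=
    stable_chartG hn C hs ht hm D f₁ f₂ h _ _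
  obtain ⟨G, hG, hG0⟩ := point_mv _ (P.isPoint _ _ hst)
  refine ⟨G, ?_, hG0⟩
  intro B _ _ f
  have h1 := P.base _ B f _ hst
  rw [hG, bc_span, chartG_map] at h1
  exact h1

include hs ht hm in
theorem surfaceG (D : Fin 8 → ℤ) : ∃ t : Flag → Flag → ℤ × ℤ,
    (∀ f₁ f₂ g₁ g₂, Ok D f₁ f₂ → Ok D g₁ g₂ → 0 ≤ pr (ray f₁) (t g₁ g₂ - t f₁ f₂) ∧
      0 ≤ pr (ray f₂) (t g₁ g₂ - t f₁ f₂)) ∧
    (∀ f₁ f₂ g (h : Ok D f₁ f₂) (b : ℤ), Ok D f₁ g → ray f₂ + ray g = b • ray f₁ →
      HasDeg (P.Φ (Polynomial k) (chartG l D f₁ f₂ h.1 0 Polynomial.X))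
        (pr (ray f₂) (t f₁ g - t f₁ f₂))) ∧
    ∀ f₁ f₂ g₁ g₂ (h : Ok D f₁ f₂) (h' : Ok D g₁ g₂), t f₁ f₂ = t g₁ g₂ →
      P.Φ k (chartG l D f₁ f₂ h.1 0 0) = P.Φ k (chartG l D g₁ g₂ h'.1 0 0) := by
  classical
  by_cases hex : ∃ r₁ r₂, Ok D r₁ r₂
  swap
  · refine ⟨fun _ _ => 0, ?_, ?_, ?_⟩
    · intro f₁ f₂ _ _ h
      exact absurd ⟨f₁, f₂, h⟩ hex
    · intro f₁ f₂ _ h
      exact absurd ⟨f₁, f₂, h⟩ hex
    · intro f₁ f₂ _ _ h
      exact absurd ⟨f₁, f₂, h⟩ hex
  obtain ⟨r₁, r₂, hr⟩ := hex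
  -- the reference vector
  obtain ⟨R, hR, hR0⟩ := exists_vecG hn C hs ht hm P D r₁ r₂ hr
  have hdr := hr.2.1
  set T : Fin m → AddMonoidAlgebra k (ℤ × ℤ) := fun i =>
    phi k (dual₁ (ray r₁) (ray r₂)) (dual₂ (ray r₁) (ray r₂)) (R i) with hT
  have hTne : T ≠ 0 := by
    obtain ⟨i, hi⟩ := hR0
    intro h0
    have h1 : (T i).coeff 0 = 0 := by rw [h0]; rfl
    rw [hT] at h1
    simp only at h1
    rw [coeff_phi_of_nonneg hdr (R i) 0 0 0 (by simp [pr_zero]) (by simp [pr_zero]), expo_zz] at h1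
    exact hi h1
  have hTspan := hR _ (phi k (dual₁ (ray r₁) (ray r₂)) (dual₂ (ray r₁) (ray r₂)))
  rw [phi_X0, phi_X1] at hTspan
  -- data at each corner
  have hcor : ∀ f : Flag × Flag, ∃ (G : Fin m → MvPolynomial (Fin 2) k) (t : ℤ × ℤ) (c : k),
      ∀ h : Ok D f.1 f.2,
      (∀ (B : Type) [CommRing B] [Algebra k B] (φ : MvPolynomial (Fin 2) k →ₐ[k] B),
        P.Φ B (chartG l D f.1 f.2 h.1 (φ (MvPolynomial.X 0)) (φ (MvPolynomial.X 1))) =
          Submodule.span B {fun i => φ (G i)}) ∧ (∃ i, (G i).coeff 0 ≠ 0) ∧ c ≠ 0 ∧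
      ∀ i u, (phi k (dual₁ (ray f.1) (ray f.2)) (dual₂ (ray f.1) (ray f.2)) (G i)).coeff u =
        c * (T i).coeff (u + t) := by
    rintro ⟨f₁, f₂⟩
    by_cases h : Ok D f₁ f₂
    swap
    · exact ⟨0, 0, 0, fun h' => absurd h' h⟩
    obtain ⟨G, hG, hG0⟩ := exists_vecG hn C hs ht hm P D f₁ f₂ h
    have hGspan := hG _ (phi k (dual₁ (ray f₁) (ray f₂)) (dual₂ (ray f₁) (ray f₂)))
    rw [phi_X0, phi_X1] at hGspan
    have hiso : SheafIso C
        (chartG l D r₁ r₂ hr.1 (mono k (dual₁ (ray r₁) (ray r₂))) (mono k (dual₂ (ray r₁) (ray r₂))))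
        (chartG l D f₁ f₂ h.1 (mono k (dual₁ (ray f₁) (ray f₂)))
          (mono k (dual₂ (ray f₁) (ray f₂)))) :=
      SheafIso.trans C (iso_torusG C hs ht D r₁ r₂ hr.1 hdr)
        (SheafIso.symm C (iso_torusG C hs ht D f₁ f₂ h.1 h.2.1))
    have hΦ := P.iso _ _ _
      (stable_chartG hn C hs ht hm D r₁ r₂ hr _ _)
      (stable_chartG hn C hs ht hm D f₁ f₂ h _ _)
      hiso
    rw [hTspan, hGspan] at hΦ
    obtain ⟨t, c, hc, hco⟩ := laurent_span T _ hTne hΦ
    exact ⟨G, t, c, fun _ => ⟨hG, hG0, hc, hco⟩⟩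
  choose G t c hall using hcor
  -- facts
  have h0 : ∀ f : Flag × Flag, Ok D f.1 f.2 → ∀ i, (G f i).coeff 0 = c f * (T i).coeff (t f) := by
    intro f h i
    obtain ⟨_, _, _, h4⟩ := hall f h
    have h5 := h4 i 0
    rw [zero_add, coeff_phi_of_nonneg h.2.1 (G f i) 0 0 0 (by simp [pr_zero]) (by simp [pr_zero]),
      expo_zz] at h5
    exact h5
  have hS : ∀ f : Flag × Flag, Ok D f.1 f.2 → ∃ i, (T i).coeff (t f) ≠ 0 := by
    intro f h
    obtain ⟨_, ⟨i, hi⟩, _, _⟩ := hall f h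
    refine ⟨i, fun h1 => hi ?_⟩
    rw [h0 f h i, h1, mul_zero]
  have hpos : ∀ f : Flag × Flag, Ok D f.1 f.2 → ∀ i u, (T i).coeff u ≠ 0 →
      0 ≤ pr (ray f.1) (u - t f) ∧ 0 ≤ pr (ray f.2) (u - t f) := by
    intro f h i u hu
    obtain ⟨_, _, hc, h4⟩ := hall f h
    refine nonneg_of_coeff_phi h.2.1 (G f i) (u - t f) ?_
    rw [h4, sub_add_cancel]
    exact mul_ne_zero hc hu
  refine ⟨fun f₁ f₂ => t (f₁, f₂), ?_, ?_, ?_⟩
  · intro f₁ f₂ g₁ g₂ h h'
    obtain ⟨i, hi⟩ := hS (g₁, g₂) h'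
    exact hpos (f₁, f₂) h i _ hi
  · intro f₁ f₂ g h b h' hb
    obtain ⟨hG, hG0, hc, hco⟩ := hall (f₁, f₂) h
    obtain ⟨hG', hG0', hc', hco'⟩ := hall (f₁, g) h'
    have hΦ := hG _ (psi k)
    simp only [psi_X0, psi_X1] at hΦ
    -- the two corners are on the same edge
    have e1 : 0 ≤ pr (ray f₁) (t (f₁, g) - t (f₁, f₂)) := by
      obtain ⟨i, hi⟩ := hS (f₁, g) h'
      exact (hpos (f₁, f₂) h i _ hi).1
    have e2 : 0 ≤ pr (ray f₁) (t (f₁, f₂) - t (f₁, g)) := by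
      obtain ⟨i, hi⟩ := hS (f₁, f₂) h
      exact (hpos (f₁, g) h' i _ hi).1
    have e3 : pr (ray f₁) (t (f₁, g) - t (f₁, f₂)) = 0 := by
      rw [pr_sub] at e1 e2 ⊢
      omega
    have e4 : 0 ≤ pr (ray f₂) (t (f₁, g) - t (f₁, f₂)) := by
      obtain ⟨i, hi⟩ := hS (f₁, g) h'
      exact (hpos (f₁, f₂) h i _ hi).2
    obtain ⟨p, hp⟩ := Int.eq_ofNat_of_zero_le e4
    refine ⟨_, hΦ, ?_, ?_, ?_⟩
    · obtain ⟨i, hi⟩ := hG0
      refine ⟨i, ?_⟩
      rw [coeff_psi, expo_zz]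
      exact hi
    · intro i
      rw [hp]
      have : ((psi k) (G (f₁, f₂) i)).natDegree ≤ p := by
        rw [Polynomial.natDegree_le_iff_coeff_eq_zero]
        intro j hj
        by_contra hne
        rw [coeff_psi] at hne
        -- u = j w₂
        have hu1 : pr (ray f₁) (j • dual₂ (ray f₁) (ray f₂)) = (0 : ℕ) := by
          rw [pr_nsmul, pr_dual₁₂]; simp
        have hu2 : pr (ray f₂) (j • dual₂ (ray f₁) (ray f₂)) = (j : ℕ) := by
          rw [pr_nsmul, pr_dual₂₂ h.2.1]; simp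
        rw [← coeff_phi_of_nonneg h.2.1 (G (f₁, f₂) i) _ 0 j hu1 hu2, hco] at hne
        have hne' := right_ne_zero_of_mul hne
        have h7 := (hpos (f₁, g) h' i _ hne').2
        have h8 : pr (ray f₂) (j • dual₂ (ray f₁) (ray f₂) + t (f₁, f₂) - t (f₁, g)) +
            pr (ray g) (j • dual₂ (ray f₁) (ray f₂) + t (f₁, f₂) - t (f₁, g)) =
            b * pr (ray f₁) (j • dual₂ (ray f₁) (ray f₂) + t (f₁, f₂) - t (f₁, g)) := by
          rw [← pr_add_left, hb, pr_zsmul_left]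
        have h9 : pr (ray f₁) (j • dual₂ (ray f₁) (ray f₂) + t (f₁, f₂) - t (f₁, g)) = 0 := by
          rw [pr_sub, pr_add, hu1]
          rw [pr_sub] at e3
          simp only [Nat.cast_zero]
          omega
        rw [h9, mul_zero, pr_sub, pr_add, hu2] at h8
        simp only at h7
        rw [pr_sub] at hp
        have : (p : ℤ) < (j : ℤ) := by exact_mod_cast hj
        omega
      exact_mod_cast this
    · obtain ⟨i, hi⟩ := hS (f₁, g) h'
      have h5 : (G (f₁, f₂) i).coeff (expo 0 p) ≠ 0 := by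
        rw [← coeff_phi_of_nonneg h.2.1 (G (f₁, f₂) i) (t (f₁, g) - t (f₁, f₂)) 0 p
          (by rw [e3]; simp) hp, hco, sub_add_cancel]
        exact mul_ne_zero hc hi
      have h6 : ((psi k) (G (f₁, f₂) i)).coeff p ≠ 0 := by
        rw [coeff_psi]; exact h5
      refine ⟨i, ?_, ?_⟩
      · intro h7
        rw [h7] at h6
        simp at h6
      · have h8 := Polynomial.le_natDegree_of_ne_zero h6
        have h9 : ((psi k) (G (f₁, f₂) i)).natDegree ≤ p := by
          rw [Polynomial.natDegree_le_iff_coeff_eq_zero]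
          intro j hj
          by_contra hne
          rw [coeff_psi] at hne
          have hu1 : pr (ray f₁) (j • dual₂ (ray f₁) (ray f₂)) = (0 : ℕ) := by
            rw [pr_nsmul, pr_dual₁₂]; simp
          have hu2 : pr (ray f₂) (j • dual₂ (ray f₁) (ray f₂)) = (j : ℕ) := by
            rw [pr_nsmul, pr_dual₂₂ h.2.1]; simp
          rw [← coeff_phi_of_nonneg h.2.1 (G (f₁, f₂) i) _ 0 j hu1 hu2, hco] at hne
          have hne' := right_ne_zero_of_mul hne
          have h7 := (hpos (f₁, g) h' i _ hne').2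
          have h8 : pr (ray f₂) (j • dual₂ (ray f₁) (ray f₂) + t (f₁, f₂) - t (f₁, g)) +
              pr (ray g) (j • dual₂ (ray f₁) (ray f₂) + t (f₁, f₂) - t (f₁, g)) =
              b * pr (ray f₁) (j • dual₂ (ray f₁) (ray f₂) + t (f₁, f₂) - t (f₁, g)) := by
            rw [← pr_add_left, hb, pr_zsmul_left]
          have h9 : pr (ray f₁) (j • dual₂ (ray f₁) (ray f₂) + t (f₁, f₂) - t (f₁, g)) = 0 := by
            rw [pr_sub, pr_add, hu1]
            rw [pr_sub] at e3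
            simp only [Nat.cast_zero]
            omega
          rw [h9, mul_zero, pr_sub, pr_add, hu2] at h8
          simp only at h7
          rw [pr_sub] at hp
          have : (p : ℤ) < (j : ℤ) := by exact_mod_cast hj
          omega
        rw [hp]
        exact_mod_cast le_antisymm h9 h8
  · intro f₁ f₂ g₁ g₂ h h' hteq
    simp only at hteq
    have h1 := (hall (f₁, f₂) h).1 k (MvPolynomial.aeval (fun _ => (0 : k)))
    have h2 := (hall (g₁, g₂) h').1 k (MvPolynomial.aeval (fun _ => (0 : k)))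
    simp only [MvPolynomial.aeval_X] at h1 h2
    rw [h1, h2]
    have hev : ∀ g : MvPolynomial (Fin 2) k,
        (MvPolynomial.aeval (fun _ => (0 : k))) g = g.coeff 0 := by
      intro g
      rw [← MvPolynomial.constantCoeff_eq]
      have := MvPolynomial.aeval_zero' (σ := Fin 2) (S₁ := k) g
      simpa using this
    simp only [hev]
    have h3 : (fun i => (G (f₁, f₂) i).coeff 0) =
        (c (f₁, f₂) / c (g₁, g₂)) • (fun i => (G (g₁, g₂) i).coeff 0) := by
      funext i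
      have hc' : c (g₁, g₂) ≠ 0 := (hall (g₁, g₂) h').2.2.1
      rw [Pi.smul_apply, h0 (f₁, f₂) h i, h0 (g₁, g₂) h' i, hteq, smul_eq_mul]
      field_simp
    rw [h3]
    have hunit : IsUnit (c (f₁, f₂) / c (g₁, g₂)) :=
      isUnit_iff_ne_zero.mpr (div_ne_zero (hall (f₁, f₂) h).2.2.1 (hall (g₁, g₂) h').2.2.1)
    exact Submodule.span_singleton_smul_eq hunit _

end main

end Pool.Agent.helper72.CJG
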