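import Mathlib
import Pool.Agent.helper72.CJG.Surf

/-!
# The two sides of a boundary curve, for the curve of genus `l + 2`
-/

namespace Pool.Agent.helper72.CJG

open Finset Pool.Agent.helper72.CJ Pool.Agent.helper4.CJ Pool.Agent.helper33.CJ

variable {l n : ℕ} {k : Type} [Field k]

/-- The factor by which the value at the source branch of `e` changes under the shift at `e₀`. -/
noncomputable def facSG (C : Curve k (Fin 8) (Nodes l) n) (e₀ e : Nodes l) : k :=
  (if C.src e = C.src e₀ then C.p e - C.p e₀ else 1) *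
    (if C.src e = C.tgt e₀ then (C.p e - C.q e₀)⁻¹ else 1)

noncomputable def facTG (C : Curve k (Fin 8) (Nodes l) n) (e₀ e : Nodes l) : k :=
  (if C.tgt e = C.src e₀ then C.q e - C.p e₀ else 1) *
    (if C.tgt e = C.tgt e₀ then (C.q e - C.q e₀)⁻¹ else 1)

theorem facSG_ne (C : Curve k (Fin 8) (Nodes l) n) (e₀ e : Nodes l) (h : e ≠ e₀) :
    facSG C e₀ e ≠ 0 := by
  unfold facSG
  refine mul_ne_zero ?_ ?_
  · split_ifs with h1
    · exact sub_ne_zero.mpr fun h2 => h (C.pp e e₀ h1 h2)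
    · exact one_ne_zero
  · split_ifs with h1
    · exact inv_ne_zero (sub_ne_zero.mpr (C.pq e e₀ h1))
    · exact one_ne_zero

theorem facTG_ne (C : Curve k (Fin 8) (Nodes l) n) (e₀ e : Nodes l) (h : e ≠ e₀) :
    facTG C e₀ e ≠ 0 := by
  unfold facTG
  refine mul_ne_zero ?_ ?_
  · split_ifs with h1
    · exact sub_ne_zero.mpr fun h2 => C.pq e₀ e h1.symm h2.symm
    · exact one_ne_zero
  · split_ifs with h1
    · exact inv_ne_zero (sub_ne_zero.mpr fun h2 => h (C.qq e e₀ h1 h2))
    · exact one_ne_zero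

open Classical in
noncomputable def uSG (C : Curve k (Fin 8) (Nodes l) n) (e₀ e : Nodes l) : kˣ :=
  if h : e ≠ e₀ then Units.mk0 (facSG C e₀ e) (facSG_ne C e₀ e h) else 1

open Classical in
noncomputable def uTG (C : Curve k (Fin 8) (Nodes l) n) (e₀ e : Nodes l) : kˣ :=
  if h : e ≠ e₀ then Units.mk0 (facTG C e₀ e) (facTG_ne C e₀ e h) else 1

theorem uSG_val (C : Curve k (Fin 8) (Nodes l) n) (e₀ e : Nodes l) (h : e ≠ e₀) :
    (uSG C e₀ e : k) = facSG C e₀ e := by
  simp [uSG, h]

theorem uTG_val (C : Curve k (Fin 8) (Nodes l) n) (e₀ e : Nodes l) (h : e ≠ e₀) :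
    (uTG C e₀ e : k) = facTG C e₀ e := by
  simp [uTG, h]

/-- The factors at the self-intersections of the component 0 are trivial. -/
theorem uSG_inr (C : Curve k (Fin 8) (Nodes l) n) (hs : C.src = srcG l) (ht : C.tgt = tgtG l)
    (e₀ : Fin 9) (h0 : srcT e₀ ≠ 0) (j : Fin l) : uSG C (Sum.inl e₀) (Sum.inr j) = 1 := by
  have h1 : tgtT e₀ ≠ 0 := by
    revert h0
    revert e₀
    decide
  ext1
  rw [uSG_val C _ _ (by simp), facSG, hs, ht]
  simp [srcG, tgtG, Ne.symm h0, Ne.symm h1]

theorem uTG_inr (C : Curve k (Fin 8) (Nodes l) n) (hs : C.src = srcG l) (ht : C.tgt = tgtG l)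
    (e₀ : Fin 9) (h0 : srcT e₀ ≠ 0) (j : Fin l) : uTG C (Sum.inl e₀) (Sum.inr j) = 1 := by
  have h1 : tgtT e₀ ≠ 0 := by
    revert h0
    revert e₀
    decide
  ext1
  rw [uTG_val C _ _ (by simp), facTG, hs, ht]
  simp [srcG, tgtG, Ne.symm h0, Ne.symm h1]

open Classical in
/-- The family in the middle. -/
noncomputable def midFamG (C : Curve k (Fin 8) (Nodes l) n) (D' : Fin 8 → ℤ) (e₀ : Nodes l)
    (F : Fam (Polynomial k) (Fin 8) (Nodes l)) : Fam (Polynomial k) (Fin 8) (Nodes l) where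
  d := D'
  a := fun e => if e = e₀ then 0 else Polynomial.C ((uTG C e₀ e)⁻¹ : kˣ).val * F.a e
  b := fun e => if e = e₀ then 1 else Polynomial.C ((uSG C e₀ e)⁻¹ : kˣ).val * F.b e
  cop := by
    intro e
    by_cases h : e = e₀
    · simp [h, isCoprime_one_right]
    · rw [if_neg h, if_neg h]
      have h1 : IsUnit (Polynomial.C ((uTG C e₀ e)⁻¹ : kˣ).val) :=
        Polynomial.isUnit_C.mpr (Units.isUnit _)
      have h2 : IsUnit (Polynomial.C ((uSG C e₀ e)⁻¹ : kˣ).val) :=
        Polynomial.isUnit_C.mpr (Units.isUnit _)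
      exact (isCoprime_mul_unit_left_left h1 _ _).mpr
        ((isCoprime_mul_unit_left_right h2 _ _).mpr (F.cop e))

theorem iso_midG (C : Curve k (Fin 8) (Nodes l) n) (hs : C.src = srcG l) (ht : C.tgt = tgtG l)
    (D D' : Fin 8 → ℤ) (e₀ : Fin 9) (f : Flag)
    (hD : D' = D + Pi.single (srcT e₀) 1 - Pi.single (tgtT e₀) 1) (h : (e₀, true).1 ≠ f.1) :
    SheafIso C (chartG l D (e₀, true) f h (0 : Polynomial k) Polynomial.X)
      (midFamG C D' (Sum.inl e₀) (chartG l D (e₀, true) f h (0 : Polynomial k) Polynomial.X)) := by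
  have hne : C.src (Sum.inl e₀) ≠ C.tgt (Sum.inl e₀) := by
    rw [hs, ht]
    change srcT e₀ ≠ tgtT e₀
    clear hD h
    revert e₀
    decide
  refine iso_shift C _ _ (Sum.inl e₀) hne ?_ ?_ ?_ (uSG C (Sum.inl e₀)) (uTG C (Sum.inl e₀))
    ?_ ?_ ?_ ?_
  · simp [chartG, chart_b]
  · simp [midFamG]
  · rw [hs, ht]
    exact hD
  · intro e he
    rw [uSG_val C _ e he]
    rfl
  · intro e he
    rw [uTG_val C _ e he]
    rfl
  · intro e he
    simp only [midFamG, if_neg he]
    change Polynomial.C ((uSG C (Sum.inl e₀) e : kˣ) : k) * _ = _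
    rw [← mul_assoc, ← Polynomial.C_mul, Units.mul_inv, Polynomial.C_1, one_mul]
  · intro e he
    simp only [midFamG, if_neg he]
    change Polynomial.C ((uTG C (Sum.inl e₀) e : kˣ) : k) * _ = _
    rw [← mul_assoc, ← Polynomial.C_mul, Units.mul_inv, Polynomial.C_1, one_mul]

theorem chartG_a (D : Fin 8 → ℤ) (f₁ f₂ : Flag) (h : f₁.1 ≠ f₂.1) {A : Type} [CommRing A]
    (x y : A) (e : Fin 9) : (chartG l D f₁ f₂ h x y).a (Sum.inl e) =
      if (e, false) = f₁ then x else if (e, false) = f₂ then y else 1 := rfl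

theorem chartG_b (D : Fin 8 → ℤ) (f₁ f₂ : Flag) (h : f₁.1 ≠ f₂.1) {A : Type} [CommRing A]
    (x y : A) (e : Fin 9) : (chartG l D f₁ f₂ h x y).b (Sum.inl e) =
      if (e, true) = f₁ then x else if (e, true) = f₂ then y else 1 := rfl

theorem chartG_a' (D : Fin 8 → ℤ) (f₁ f₂ : Flag) (h : f₁.1 ≠ f₂.1) {A : Type} [CommRing A]
    (x y : A) (j : Fin l) : (chartG l D f₁ f₂ h x y).a (Sum.inr j) = 1 := rfl

theorem chartG_b' (D : Fin 8 → ℤ) (f₁ f₂ : Flag) (h : f₁.1 ≠ f₂.1) {A : Type} [CommRing A]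
    (x y : A) (j : Fin l) : (chartG l D f₁ f₂ h x y).b (Sum.inr j) = 1 := rfl

theorem iso_crossG (C : Curve k (Fin 8) (Nodes l) n) (hs : C.src = srcG l) (ht : C.tgt = tgtG l)
    (D D' : Fin 8 → ℤ) (e₀ : Fin 9) (f : Flag) (hf : e₀.val / 3 ≠ f.1.val / 3)
    (h0 : srcT e₀ ≠ 0)
    (hD : D' = D + Pi.single (srcT e₀) 1 - Pi.single (tgtT e₀) 1) (h : (e₀, true).1 ≠ f.1)
    (h' : (e₀, false).1 ≠ f.1) :
    ∃ κ : kˣ, SheafIso C (chartG l D (e₀, true) f h (0 : Polynomial k) Polynomial.X)
      (chartG l D' (e₀, false) f h' (0 : Polynomial k) (Polynomial.C (κ : k) * Polynomial.X)) := by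
  obtain ⟨x, y, c, hc⟩ := exists_adjust
    (fun e => uSG C (Sum.inl e₀) (Sum.inl e) / uTG C (Sum.inl e₀) (Sum.inl e)) e₀ f.1 hf
  obtain ⟨e₁, s⟩ := f
  simp only at h h' hf hc
  have h01 : e₁ ≠ e₀ := fun h1 => h h1.symm
  let κ : kˣ := if s then y * uTG C (Sum.inl e₀) (Sum.inl e₁) / uSG C (Sum.inl e₀) (Sum.inl e₁)
    else uSG C (Sum.inl e₀) (Sum.inl e₁) / (y * uTG C (Sum.inl e₀) (Sum.inl e₁))
  let α : Fin 9 → kˣ := fun e => if e = e₀ then x⁻¹ else
    if e = e₁ then (if s then uTG C (Sum.inl e₀) (Sum.inl e) else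
      κ * uTG C (Sum.inl e₀) (Sum.inl e)) else uTG C (Sum.inl e₀) (Sum.inl e)
  let β : Fin 9 → kˣ := fun e => if e = e₀ then 1 else
    if e = e₁ then (if s then κ * uSG C (Sum.inl e₀) (Sum.inl e) else
      uSG C (Sum.inl e₀) (Sum.inl e)) else uSG C (Sum.inl e₀) (Sum.inl e)
  refine ⟨κ, SheafIso.trans C (iso_midG C hs ht D D' e₀ (e₁, s) hD h) ?_⟩
  refine iso_scale C _ _ rfl (Sum.elim (fun e => cU (α e)) (fun _ => 1))
    (Sum.elim (fun e => cU (β e)) (fun _ => 1)) ?_ ?_ (fun v => cU (c v)) ?_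
  · rintro (e | j)
    swap
    · have h6 : (Sum.inr j : Nodes l) ≠ Sum.inl e₀ := by simp
      simp only [midFamG, if_neg h6, chartG_a', Sum.elim_inr]
      rw [uTG_inr C hs ht e₀ h0 j]
      simp
    rw [Sum.elim_inl, cU_val, chartG_a]
    by_cases he : e = e₀
    · subst he
      simp [midFamG]
    · have he' : (Sum.inl e : Nodes l) ≠ Sum.inl e₀ := by simpa using he
      have h2 : (e, false) ≠ (e₀, false) := fun h3 => he (by simpa using h3)
      simp only [midFamG, if_neg he', if_neg h2, chartG_a]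
      have h3 : (e, false) ≠ (e₀, true) := by simp
      rw [if_neg h3]
      by_cases he1 : e = e₁
      · subst he1
        cases s
        · simp only [α, if_neg he, if_true, Bool.false_eq_true, if_false]
          rw [← mul_assoc, ← Polynomial.C_mul, Units.val_mul, mul_assoc, Units.mul_inv, mul_one]
        · have h4 : (e, false) ≠ (e, true) := by simp
          simp only [α, if_neg he, if_true, if_neg h4]
          rw [mul_one, ← Polynomial.C_mul, Units.mul_inv, Polynomial.C_1]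
      · have h4 : (e, false) ≠ (e₁, s) := fun h5 => he1 (by simpa using (Prod.ext_iff.mp h5).1)
        simp only [α, if_neg he, if_neg he1, if_neg h4]
        rw [mul_one, ← Polynomial.C_mul, Units.mul_inv, Polynomial.C_1]
  · rintro (e | j)
    swap
    · have h6 : (Sum.inr j : Nodes l) ≠ Sum.inl e₀ := by simp
      simp only [midFamG, if_neg h6, chartG_b', Sum.elim_inr]
      rw [uSG_inr C hs ht e₀ h0 j]
      simp
    rw [Sum.elim_inl, cU_val, chartG_b]
    by_cases he : e = e₀
    · subst he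
      have h4 : (e, true) ≠ (e₁, s) := fun h5 => h01 (by simpa using (Prod.ext_iff.mp h5).1.symm)
      simp [midFamG, β, h4]
    · have he' : (Sum.inl e : Nodes l) ≠ Sum.inl e₀ := by simpa using he
      have h2 : (e, true) ≠ (e₀, true) := fun h3 => he (by simpa using h3)
      simp only [midFamG, if_neg he', chartG_b, if_neg h2]
      have h3 : (e, true) ≠ (e₀, false) := by simp
      rw [if_neg h3]
      by_cases he1 : e = e₁
      · subst he1
        cases s
        · have h4 : (e, true) ≠ (e, false) := by simp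
          simp only [β, if_neg he, if_true, if_neg h4, Bool.false_eq_true, if_false]
          rw [mul_one, ← Polynomial.C_mul, Units.mul_inv, Polynomial.C_1]
        · simp only [β, if_neg he, if_true]
          rw [← mul_assoc, ← Polynomial.C_mul, Units.val_mul, mul_assoc, Units.mul_inv, mul_one]
      · have h4 : (e, true) ≠ (e₁, s) := fun h5 => he1 (by simpa using (Prod.ext_iff.mp h5).1)
        simp only [β, if_neg he, if_neg he1, if_neg h4]
        rw [mul_one, ← Polynomial.C_mul, Units.mul_inv, Polynomial.C_1]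
  · rintro (e | j)
    swap
    · rw [hs, ht]
      rfl
    have h5 : α e * c (tgtT e) = β e * c (srcT e) := by
      rw [hc e]
      by_cases he : e = e₀
      · simp only [α, β, if_pos he]
        rw [mul_comm (c (srcT e)) x, ← mul_assoc, inv_mul_cancel]
      · by_cases he1 : e = e₁
        · subst he1
          cases s
          · simp only [α, β, κ, if_neg he, if_true, Bool.false_eq_true, if_false]
            rw [div_mul_eq_mul_div, mul_comm (c (srcT e)) y, ← mul_assoc]
            rw [show uSG C (Sum.inl e₀) (Sum.inl e) * uTG C (Sum.inl e₀) (Sum.inl e) /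
              (y * uTG C (Sum.inl e₀) (Sum.inl e)) * y = uSG C (Sum.inl e₀) (Sum.inl e) by
              rw [mul_div_mul_right_eq_div, div_mul_cancel]]
          · simp only [α, β, κ, if_neg he, if_true]
            rw [div_mul_cancel, mul_comm (c (srcT e)) y, ← mul_assoc,
              mul_comm (uTG C (Sum.inl e₀) (Sum.inl e)) y]
        · simp only [α, β, if_neg he, if_neg he1]
          rw [mul_comm (c (srcT e)), ← mul_assoc, mul_div_cancel]
    rw [hs, ht]
    have h6 := congrArg cU h5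
    simp only [cU, map_mul] at h6 ⊢
    exact h6

section main

variable (hn : 6 ≤ n)
  (C : Curve k (Fin 8) (Nodes l) n) (hs : C.src = srcG l)
  (ht : C.tgt = tgtG l) (hm : C.mark = markG n) {m : ℕ} (P : ProjMap (sigmaG (l + 2) n hn) C m)

include hs ht hm in
theorem crossG (D D' : Fin 8 → ℤ) (e₀ : Fin 9) (f : Flag) (hf : e₀.val / 3 ≠ f.1.val / 3)
    (h0 : srcT e₀ ≠ 0)
    (hD : D' = D + Pi.single (srcT e₀) 1 - Pi.single (tgtT e₀) 1)
    (h : Ok D (e₀, true) f) (h' : Ok D' (e₀, false) f) (p : ℤ)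
    (hp : HasDeg (P.Φ (Polynomial k) (chartG l D (e₀, true) f h.1 0 Polynomial.X)) p) :
    HasDeg (P.Φ (Polynomial k) (chartG l D' (e₀, false) f h'.1 0 Polynomial.X)) p := by
  obtain ⟨κ, hκ⟩ := iso_crossG C hs ht D D' e₀ f hf h0 hD h.1 h'.1
  have s1 := stable_chartG hn C hs ht hm D (e₀, true) f h (0 : Polynomial k) Polynomial.X
  have s2 := stable_chartG hn C hs ht hm D' (e₀, false) f h'
    (0 : Polynomial k) (Polynomial.C (κ : k) * Polynomial.X)
  rw [P.iso _ _ _ s1 s2 hκ] at hp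
  have h3 := hasDeg_scale _ p hp κ⁻¹
  rw [← P.base _ _ _ _ s2, chartG_map] at h3
  have h4 : ((Polynomial.aeval (Polynomial.C ((κ⁻¹ : kˣ) : k) * Polynomial.X) :
      Polynomial k →ₐ[k] Polynomial k) : Polynomial k →+* Polynomial k)
      (Polynomial.C (κ : k) * Polynomial.X) = Polynomial.X := by
    simp only [RingHom.coe_coe, map_mul, Polynomial.aeval_X, Polynomial.aeval_C]
    rw [Polynomial.algebraMap_eq, ← mul_assoc, ← Polynomial.C_mul, Units.mul_inv, Polynomial.C_1,
      one_mul]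
  rw [h4, map_zero] at h3
  exact h3

end main

end Pool.Agent.helper72.CJG
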