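import Mathlib
import Pool.Agent.helper72.CJG.Cross

/-!
# There is no injective morphism to a projective space
-/

namespace Pool.Agent.helper72.CJG

open Finset Pool.Agent.helper72.CJ Pool.Agent.helper4.CJ Pool.Agent.helper33.CJ

section main

variable {l n : ℕ} (hn : 6 ≤ n) {k : Type} [Field k]
  (C : Curve k (Fin 8) (Nodes l) n) (hs : C.src = srcG l)
  (ht : C.tgt = tgtG l) (hm : C.mark = markG n) {m : ℕ}
  (P : ProjMap (sigmaG (l + 2) n hn) C m)

include hs ht hm P in
theorem no_projMapG : False := by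
  obtain ⟨⟨a1, a2, a3, a4⟩, ⟨b1, b2, b3⟩, ⟨c1, c2, c3, c4⟩, ⟨d1, d2, d3⟩, ⟨e1, e2, e3, e4⟩,
    ⟨f1, f2, f3, f4⟩⟩ := ok_all
  obtain ⟨t1, tv1, td1, te1⟩ := surfaceG hn C hs ht hm P D1
  obtain ⟨t2, tv2, td2, -⟩ := surfaceG hn C hs ht hm P D2
  obtain ⟨t3, tv3, td3, -⟩ := surfaceG hn C hs ht hm P D3
  obtain ⟨t4, tv4, td4, -⟩ := surfaceG hn C hs ht hm P D4
  obtain ⟨t5, tv5, td5, -⟩ := surfaceG hn C hs ht hm P D5
  obtain ⟨t6, tv6, td6, -⟩ := surfaceG hn C hs ht hm P D6
  -- the surface D1: C2 < C5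
  have x1 := td1 (2, true) (5, true) (4, false) a1 0 a4 (by decide)
  have x2 := td1 (5, true) (2, true) (6, true) a1.swap (-1) a2 (by decide)
  have i1 : pr (ray (5, true)) (t1 (2, true) (4, false) - t1 (2, true) (5, true)) <
      pr (ray (2, true)) (t1 (5, true) (6, true) - t1 (5, true) (2, true)) := by
    have hne : t1 (6, true) (4, false) ≠ t1 (2, true) (4, false) := by
      intro heq
      have h1 := te1 _ _ _ _ a3 a4 heq
      have s1 := stable_chartG hn C hs ht hm D1 (6, true) (4, false) a3 (0 : k) 0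
      have s2 := stable_chartG hn C hs ht hm D1 (2, true) (4, false) a4 (0 : k) 0
      refine not_iso C _ _ (Sum.inl 6) ?_ ?_ (P.inj _ _ s1 s2 h1)
      · right
        simp [chartG_b]
      · constructor
        · rw [chartG_a, if_neg (by decide), if_neg (by decide)]
          exact one_ne_zero
        · rw [chartG_b, if_neg (by decide), if_neg (by decide)]
          exact one_ne_zero
    have y1 := tv1 _ _ _ _ a1 a1.swap
    have y2 := tv1 _ _ _ _ a1.swap a1
    have y3 := tv1 _ _ _ _ a1 a4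
    have y4 := tv1 _ _ _ _ a4 a1
    have y5 := tv1 _ _ _ _ a2 a4
    have y6 := tv1 _ _ _ _ a1 a2
    have y7 := tv1 _ _ _ _ a2 a1
    have y8 := tv1 _ _ _ _ a3 a4
    have y9 := tv1 _ _ _ _ a4 a3
    have y10 := tv1 _ _ _ _ a2 a3
    have y11 := tv1 _ _ _ _ a3 a2
    rw [Ne, Prod.ext_iff] at hne
    simp [pr, ray] at y1 y2 y3 y4 y5 y6 y7 y8 y9 y10 y11 ⊢
    omega
  -- the surface D3: C5 ≤ C8
  have x3 := td3 (5, false) (2, true) (6, true) c1 1 c2 (by decide)
  have x4 := td3 (8, false) (2, true) (1, false) c3 0 c4 (by decide)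
  have i2 : pr (ray (2, true)) (t3 (5, false) (6, true) - t3 (5, false) (2, true)) ≤
      pr (ray (2, true)) (t3 (8, false) (1, false) - t3 (8, false) (2, true)) := by
    have y1 := tv3 _ _ _ _ c1 c3
    have y2 := tv3 _ _ _ _ c3 c1
    have y3 := tv3 _ _ _ _ c4 c2
    simp [pr, ray] at y1 y2 y3 ⊢
    omega
  -- the surface D2: C8 ≤ C2'
  have x5 := td2 (8, true) (2, true) (1, false) b1.swap 0 b3 (by decide)
  have x6 := td2 (2, true) (8, true) (3, true) b1 (-1) b2 (by decide)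
  have i3 : pr (ray (2, true)) (t2 (8, true) (1, false) - t2 (8, true) (2, true)) ≤
      pr (ray (8, true)) (t2 (2, true) (3, true) - t2 (2, true) (8, true)) := by
    have y1 := tv2 _ _ _ _ b1 b1.swap
    have y2 := tv2 _ _ _ _ b1.swap b1
    have y3 := tv2 _ _ _ _ b1 b3
    have y4 := tv2 _ _ _ _ b3 b1
    have y5 := tv2 _ _ _ _ b2 b3
    have y6 := tv2 _ _ _ _ b1 b2
    have y7 := tv2 _ _ _ _ b2 b1
    simp [pr, ray] at y1 y2 y3 y4 y5 y6 y7 ⊢
    omega
  -- the surface D6: C2' ≤ C5'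
  have x7 := td6 (2, false) (8, true) (3, true) f1 1 f2 (by decide)
  have x8 := td6 (5, false) (8, true) (7, false) f3 0 f4 (by decide)
  have i4 : pr (ray (8, true)) (t6 (2, false) (3, true) - t6 (2, false) (8, true)) ≤
      pr (ray (8, true)) (t6 (5, false) (7, false) - t6 (5, false) (8, true)) := by
    have y1 := tv6 _ _ _ _ f1 f3
    have y2 := tv6 _ _ _ _ f3 f1
    have y3 := tv6 _ _ _ _ f4 f2
    simp [pr, ray] at y1 y2 y3 ⊢
    omega
  -- the surface D4: C5' ≤ C8'
  have x9 := td4 (5, true) (8, true) (7, false) d1 0 d3 (by decide)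
  have x10 := td4 (8, true) (5, true) (0, true) d1.swap (-1) d2 (by decide)
  have i5 : pr (ray (8, true)) (t4 (5, true) (7, false) - t4 (5, true) (8, true)) ≤
      pr (ray (5, true)) (t4 (8, true) (0, true) - t4 (8, true) (5, true)) := by
    have y1 := tv4 _ _ _ _ d1 d1.swap
    have y2 := tv4 _ _ _ _ d1.swap d1
    have y3 := tv4 _ _ _ _ d1 d3
    have y4 := tv4 _ _ _ _ d3 d1
    have y5 := tv4 _ _ _ _ d2 d3
    have y6 := tv4 _ _ _ _ d1 d2
    have y7 := tv4 _ _ _ _ d2 d1
    simp [pr, ray] at y1 y2 y3 y4 y5 y6 y7 ⊢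
    omega
  -- the surface D5: C8' ≤ C2
  have x11 := td5 (8, false) (5, true) (0, true) e1 1 e2 (by decide)
  have x12 := td5 (2, false) (5, true) (4, false) e3 0 e4 (by decide)
  have i6 : pr (ray (5, true)) (t5 (8, false) (0, true) - t5 (8, false) (5, true)) ≤
      pr (ray (5, true)) (t5 (2, false) (4, false) - t5 (2, false) (5, true)) := by
    have y1 := tv5 _ _ _ _ e1 e3
    have y2 := tv5 _ _ _ _ e3 e1
    have y3 := tv5 _ _ _ _ e4 e2
    simp [pr, ray] at y1 y2 y3 ⊢
    omega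
  -- the two sides
  have j2 := hasDeg_unique _ _ _
    (crossG hn C hs ht hm P D1 D5 2 (5, true) (by decide) (by decide) (by decide) a1 e3 _ x1) x12
  have j5 := hasDeg_unique _ _ _
    (crossG hn C hs ht hm P D1 D3 5 (2, true) (by decide) (by decide) (by decide) a1.swap c1 _ x2) x3
  have j8 := hasDeg_unique _ _ _
    (crossG hn C hs ht hm P D2 D3 8 (2, true) (by decide) (by decide) (by decide) b1.swap c3 _ x5) x4
  have j2' := hasDeg_unique _ _ _
    (crossG hn C hs ht hm P D2 D6 2 (8, true) (by decide) (by decide) (by decide) b1 f1 _ x6) x7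
  have j5' := hasDeg_unique _ _ _
    (crossG hn C hs ht hm P D4 D6 5 (8, true) (by decide) (by decide) (by decide) d1 f3 _ x9) x8
  have j8' := hasDeg_unique _ _ _
    (crossG hn C hs ht hm P D4 D5 8 (5, true) (by decide) (by decide) (by decide) d1.swap e1 _ x10) x11
  omega

end main

end Pool.Agent.helper72.CJG
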