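import Mathlib
import Pool.Agent.helper72.CJ.Defs

/-!
# Isomorphisms of sheaves and injective morphisms to projective space
-/

namespace Pool.Agent.helper72.CJG

open Finset Pool.Agent.helper72.CJ

variable {V E : Type} {g n : ℕ} {χ : ℤ} {k : Type} [Field k]

/-- The sheaf attached to a family `F`: its sections over the affine curve obtained by removing
the points at infinity of all components are the tuples of polynomials `s` such that, at every
node `e`, the pair of values of `s` at the two points over `e` lies on the line generated by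
`(a e, b e)`. -/
def IsSection {A : Type} [CommRing A] [Algebra k A] (C : Curve k V E n) (F : Fam A V E)
    (s : V → Polynomial A) : Prop :=
  ∀ e, F.b e * (s (C.src e)).eval (algebraMap k A (C.p e)) =
    F.a e * (s (C.tgt e)).eval (algebraMap k A (C.q e))

/-- The map `θ` defines a homomorphism from the sheaf attached to `F` to the sheaf attached
to `F'`: it maps sections over the affine curve to such sections, is additive, is linear over the
regular functions of the affine curve, and does not increase the orders of the poles at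
infinity. -/
def IsHom {A : Type} [CommRing A] [Algebra k A] (C : Curve k V E n) (F F' : Fam A V E)
    (θ : (V → Polynomial A) → V → Polynomial A) : Prop :=
  (∀ s, IsSection C F s → IsSection C F' (θ s)) ∧
  (∀ s t, IsSection C F s → IsSection C F t → θ (s + t) = θ s + θ t) ∧
  (∀ f ∈ regular C A, ∀ s, IsSection C F s → θ (f * s) = f * θ s) ∧
  ∀ (m : V → ℤ) (s : V → Polynomial A), IsSection C F s → PoleLE F.d m s → PoleLE F'.d m (θ s)

/-- The sheaves attached to the families `F` and `F'` are isomorphic. -/
def IsIso {A : Type} [CommRing A] [Algebra k A] (C : Curve k V E n) (F F' : Fam A V E) : Prop :=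
  ∃ θ θ' : (V → Polynomial A) → V → Polynomial A, IsHom C F F' θ ∧ IsHom C F' F θ' ∧
    (∀ s, IsSection C F s → θ' (θ s) = s) ∧ ∀ s, IsSection C F' s → θ (θ' s) = s

/-- An injective morphism from the moduli problem of `σ`-stable torsion-free sheaves of rank one
on `C` to the projective space of dimension `m - 1` over `k`: a rule `Φ` that attaches to
every family of stable sheaves over a `k`-algebra `A` an `A`-valued point of projective
space, depends only on the isomorphism class of the sheaf, is compatible with base change, and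
takes different values on non-isomorphic sheaves over `k`. -/
structure InjMap (σ : FineV g n χ) (C : Curve k V E n) [DecidableEq V] [Fintype V] [Fintype E]
    (m : ℕ) where
  Φ : ∀ (A : Type) [CommRing A] [Algebra k A], Fam A V E → Submodule A (Fin m → A)
  isPoint : ∀ (A : Type) [CommRing A] [Algebra k A] (F : Fam A V E), Stable σ C F →
    IsPoint (Φ A F)
  iso : ∀ (A : Type) [CommRing A] [Algebra k A] (F F' : Fam A V E), Stable σ C F →
    Stable σ C F' → IsIso C F F' → Φ A F = Φ A F'
  base : ∀ (A B : Type) [CommRing A] [Algebra k A] [CommRing B] [Algebra k B] (f : A →ₐ[k] B)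
    (F : Fam A V E), Stable σ C F → Φ B (F.map (f : A →+* B)) = bc (f : A →+* B) (Φ A F)
  inj : ∀ F F' : Fam k V E, Stable σ C F → Stable σ C F' → Φ k F = Φ k F' → IsIso C F F'

open Classical in
theorem isIso_of_sheafIso {A : Type} [CommRing A] [Algebra k A] (C : Curve k V E n)
    (F F' : Fam A V E) (h : SheafIso C F F') : IsIso C F F' := by
  obtain ⟨θ, h1, h2⟩ := h
  have mulmem : ∀ (G : Fam A V E) (f s : V → Polynomial A), f ∈ regular C A → s ∈ sec C G →
      f * s ∈ sec C G := by
    intro G f s hf hs e
    have hf' := hf e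
    have hs' := hs e
    simp only [Pi.mul_apply, Polynomial.eval_mul]
    rw [hf', mul_left_comm, hs', mul_left_comm]
  have aux : ∀ (G G' : Fam A V E) (η : sec C G ≃+ sec C G'),
      (∀ f ∈ regular C A, ∀ s t : sec C G, (t : V → Polynomial A) = f * (s : V → Polynomial A) →
        (η t : V → Polynomial A) = f * (η s : V → Polynomial A)) →
      (∀ (m : V → ℤ) (s : sec C G), PoleLE G.d m (s : V → Polynomial A) ↔
        PoleLE G'.d m (η s : V → Polynomial A)) →
      IsHom C G G' (fun s => if hs : s ∈ sec C G then (η ⟨s, hs⟩ : V → Polynomial A) else 0) := by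
    intro G G' η h1 h2
    refine ⟨fun s hs => ?_, fun s t hs ht => ?_, fun f hf s hs => ?_, fun m s hs hp => ?_⟩
    · have hs' : s ∈ sec C G := hs
      simp only [dif_pos hs']
      exact (η ⟨s, hs'⟩).2
    · have hs' : s ∈ sec C G := hs
      have ht' : t ∈ sec C G := ht
      have hst : s + t ∈ sec C G := add_mem hs' ht'
      simp only [dif_pos hs', dif_pos ht', dif_pos hst]
      have : (⟨s + t, hst⟩ : sec C G) = ⟨s, hs'⟩ + ⟨t, ht'⟩ := rfl
      rw [this, map_add]
      rfl
    · have hs' : s ∈ sec C G := hs
      have hfs : f * s ∈ sec C G := mulmem G f s hf hs'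
      simp only [dif_pos hs', dif_pos hfs]
      exact h1 f hf ⟨s, hs'⟩ ⟨f * s, hfs⟩ rfl
    · have hs' : s ∈ sec C G := hs
      simp only [dif_pos hs']
      exact (h2 m ⟨s, hs'⟩).mp hp
  refine ⟨_, _, aux F F' θ h1 h2, aux F' F θ.symm ?_ ?_, ?_, ?_⟩
  · intro f hf s t hst
    have hs : f * ((θ.symm s : sec C F) : V → Polynomial A) ∈ sec C F :=
      mulmem F f _ hf (θ.symm s).2
    have h3 := h1 f hf (θ.symm s) ⟨_, hs⟩ rfl
    rw [θ.apply_symm_apply] at h3
    have h4 : θ ⟨_, hs⟩ = t := Subtype.ext (h3.trans hst.symm)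
    rw [← h4, θ.symm_apply_apply]
  · intro m s
    have h3 := h2 m (θ.symm s)
    rw [θ.apply_symm_apply] at h3
    exact h3.symm
  · intro s hs
    have hs' : s ∈ sec C F := hs
    simp only [dif_pos hs', dif_pos (θ ⟨s, hs'⟩).2]
    have : (⟨(θ ⟨s, hs'⟩ : V → Polynomial A), (θ ⟨s, hs'⟩).2⟩ : sec C F') = θ ⟨s, hs'⟩ := rfl
    rw [this, θ.symm_apply_apply]
  · intro s hs
    have hs' : s ∈ sec C F' := hs
    simp only [dif_pos hs', dif_pos (θ.symm ⟨s, hs'⟩).2]
    have : (⟨(θ.symm ⟨s, hs'⟩ : V → Polynomial A), (θ.symm ⟨s, hs'⟩).2⟩ : sec C F) =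
      θ.symm ⟨s, hs'⟩ := rfl
    rw [this, θ.apply_symm_apply]

theorem sheafIso_of_isIso {A : Type} [CommRing A] [Algebra k A] (C : Curve k V E n)
    (F F' : Fam A V E) (h : IsIso C F F') : SheafIso C F F' := by
  obtain ⟨θ, θ', ⟨a1, a2, a3, a4⟩, ⟨b1, b2, b3, b4⟩, h1, h2⟩ := h
  refine ⟨{ toFun := fun s => ⟨θ s, a1 s s.2⟩
            invFun := fun s => ⟨θ' s, b1 s s.2⟩
            left_inv := fun s => Subtype.ext (h1 s s.2)
            right_inv := fun s => Subtype.ext (h2 s s.2)
            map_add' := fun s t => Subtype.ext (a2 s t s.2 t.2) }, ?_, ?_⟩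
  · intro f hf s t hst
    change θ t = f * θ s
    rw [hst]
    exact a3 f hf s s.2
  · intro m s
    constructor
    · exact fun hp => a4 m s s.2 hp
    · intro hp
      have := b4 m (θ s) (a1 s s.2) hp
      rw [h1 s s.2] at this
      exact this

/-- Comparison of the two notions. -/
def InjMap.toProjMap [DecidableEq V] [Fintype V] [Fintype E] {σ : FineV g n χ}
    {C : Curve k V E n} {m : ℕ} (P : InjMap σ C m) : ProjMap σ C m where
  Φ := P.Φ
  isPoint := P.isPoint
  iso := fun A _ _ F F' h h' hi => P.iso A F F' h h' (isIso_of_sheafIso C F F' hi)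
  base := P.base
  inj := fun F F' h h' he => sheafIso_of_isIso C F F' (P.inj F F' h h' he)

end Pool.Agent.helper72.CJG
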