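import Mathlib
import Pool.Agent.helper72.CJ.Defs

/-!
# Twisting by a multiple of a marking
-/

namespace Pool.Agent.helper72.CJG

open Finset Pool.Agent.helper72.CJ

variable {V E : Type} {g n : ℕ} {χ : ℤ}

/-- Twisting a family by `δ` times a point of the component `v₀`. -/
def twF [DecidableEq V] (v₀ : V) (δ : ℤ) {A : Type} [CommRing A] (F : Fam A V E) : Fam A V E where
  d := fun v => F.d v + if v = v₀ then δ else 0
  a := F.a
  b := F.b
  cop := F.cop

/-- Twisting a universal stability condition by `δ` times a marking. -/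
def twS (σ : FineV g n χ) (i₀ : Fin n) (δ : ℤ) : FineV g n (χ + δ) where
  val := fun t h A => σ.val t h A + if i₀ ∈ A then δ else 0
  compl := by
    intro t h h' A ht hh h1 h2
    have := σ.compl t h h' A ht hh h1 h2
    by_cases hi : i₀ ∈ A
    · simp only [hi, Finset.mem_compl, not_true_eq_false, if_true, if_false]
      omega
    · simp only [hi, Finset.mem_compl, not_false_eq_true, if_true, if_false]
      omega
  tri := by
    intro a b c h₁ h₂ h₃ A₁ A₂ A₃ ha hb hc hs h12 h13 h23 hU s1 s2 s3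
    have := σ.tri a b c h₁ h₂ h₃ A₁ A₂ A₃ ha hb hc hs h12 h13 h23 hU s1 s2 s3
    have hi : i₀ ∈ A₁ ∪ A₂ ∪ A₃ := by rw [hU]; exact Finset.mem_univ _
    rw [Finset.mem_union, Finset.mem_union] at hi
    rcases hi with (hi | hi) | hi
    · have n2 : i₀ ∉ A₂ := Finset.disjoint_left.mp h12 hi
      have n3 : i₀ ∉ A₃ := Finset.disjoint_left.mp h13 hi
      simp only [hi, n2, n3, if_true, if_false]
      omega
    · have n2 : i₀ ∉ A₁ := fun h => Finset.disjoint_left.mp h12 h hi
      have n3 : i₀ ∉ A₃ := Finset.disjoint_left.mp h23 hi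
      simp only [hi, n2, n3, if_true, if_false]
      omega
    · have n2 : i₀ ∉ A₁ := fun h => Finset.disjoint_left.mp h13 h hi
      have n3 : i₀ ∉ A₂ := fun h => Finset.disjoint_left.mp h23 h hi
      simp only [hi, n2, n3, if_true, if_false]
      omega

variable {k : Type} [Field k] [DecidableEq V] [Fintype V] [Fintype E]

omit [Fintype V] in
theorem chi_twF {K : Type} [Field K] (C : Curve k V E n) (v₀ : V) (δ : ℤ) (F : Fam K V E)
    (Y : Finset V) : chi C (twF v₀ δ F) Y = chi C F Y + if v₀ ∈ Y then δ else 0 := by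
  classical
  unfold chi
  have : ∑ v ∈ Y, ((twF v₀ δ F).d v + 1) = ∑ v ∈ Y, (F.d v + 1) + if v₀ ∈ Y then δ else 0 := by
    rw [← Finset.sum_ite_eq' Y v₀ (fun _ => δ), ← Finset.sum_add_distrib]
    refine Finset.sum_congr rfl fun v _ => ?_
    change F.d v + (if v = v₀ then δ else 0) + 1 = _
    ring
  rw [this]
  simp only [show (twF v₀ δ F).a = F.a from rfl, show (twF v₀ δ F).b = F.b from rfl]
  ring_nf

theorem stable_twF (σ : FineV g n χ) (C : Curve k V E n) (i₀ : Fin n) (δ : ℤ) {A : Type}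
    [CommRing A] (F : Fam A V E) (h : Stable σ C F) :
    Stable (twS σ i₀ δ) C (twF (C.mark i₀) δ F) := by
  intro K _ f
  obtain ⟨h1, h2⟩ := h K f
  refine ⟨?_, fun Y hY hY' => ?_⟩
  · change chi C (twF (C.mark i₀) δ (F.map f)) univ = _
    rw [chi_twF, h1, if_pos (Finset.mem_univ _)]
  · change _ ≤ chi C (twF (C.mark i₀) δ (F.map f)) Y
    rw [chi_twF]
    have h3 := h2 Y hY hY'
    have h4 : (twS σ i₀ δ).bound C Y = σ.bound C Y + if C.mark i₀ ∈ Y then δ else 0 := by
      unfold FineV.bound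
      change σ.val _ _ _ + (if i₀ ∈ (univ.filter fun i => C.mark i ∈ Y) then δ else 0) = _
      congr 1
      simp only [Finset.mem_filter, Finset.mem_univ, true_and]
    rw [h4]
    exact add_le_add_left h3 _

omit [Fintype V] [Fintype E] in
theorem poleLE_tw {A : Type} [CommRing A] (d m : V → ℤ) (v₀ : V) (δ : ℤ) (s : V → Polynomial A) :
    PoleLE (fun v => d v + if v = v₀ then δ else 0) m s ↔
      PoleLE d (fun v => m v + if v = v₀ then δ else 0) s := by
  unfold PoleLE
  refine forall_congr' fun v => forall_congr' fun j => ?_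
  rw [show d v + (if v = v₀ then δ else 0) + m v = d v + (m v + if v = v₀ then δ else 0) by ring]

omit [Fintype V] [Fintype E] in
theorem iso_twF (C : Curve k V E n) (v₀ : V) (δ : ℤ) {A : Type} [CommRing A] [Algebra k A]
    (F F' : Fam A V E) : SheafIso C (twF v₀ δ F) (twF v₀ δ F') ↔ SheafIso C F F' := by
  constructor
  · rintro ⟨θ, h1, h2⟩
    refine ⟨θ, h1, fun m s => ?_⟩
    have h3 := h2 (fun v => m v - if v = v₀ then δ else 0) s
    have h4 := poleLE_tw F.d (fun v => m v - if v = v₀ then δ else 0) v₀ δ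
      (s : V → Polynomial A)
    have h5 := poleLE_tw F'.d (fun v => m v - if v = v₀ then δ else 0) v₀ δ
      (θ s : V → Polynomial A)
    simp only [sub_add_cancel] at h4 h5
    exact h4.symm.trans (h3.trans h5)
  · rintro ⟨θ, h1, h2⟩
    refine ⟨θ, h1, fun m s => ?_⟩
    have h3 := h2 (fun v => m v + if v = v₀ then δ else 0) s
    exact (poleLE_tw F.d m v₀ δ (s : V → Polynomial A)).trans
      (h3.trans (poleLE_tw F'.d m v₀ δ (θ s : V → Polynomial A)).symm)

/-- Twisting a morphism to projective space. -/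
def projMap_tw (σ : FineV g n χ) (C : Curve k V E n) (i₀ : Fin n) (δ : ℤ) {m : ℕ}
    (P : ProjMap (twS σ i₀ δ) C m) : ProjMap σ C m where
  Φ := fun A _ _ F => P.Φ A (twF (C.mark i₀) δ F)
  isPoint := fun A _ _ F h => P.isPoint A _ (stable_twF σ C i₀ δ F h)
  iso := fun A _ _ F F' h h' hi => P.iso A _ _ (stable_twF σ C i₀ δ F h)
    (stable_twF σ C i₀ δ F' h') ((iso_twF C _ _ F F').mpr hi)
  base := fun A B _ _ _ _ f F h => P.base A B f _ (stable_twF σ C i₀ δ F h)
  inj := fun F F' h h' he => (iso_twF C _ _ F F').mp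
    (P.inj _ _ (stable_twF σ C i₀ δ F h) (stable_twF σ C i₀ δ F' h') he)

end Pool.Agent.helper72.CJG
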